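import Pool.Agent.KLS.Upper

/-!
# Deterministic part: edges of the `k`-level, Lovász lemma, long edges, flat and steep edges

A line `y = a X + b` is the point `(a, b)`.
-/

namespace Pool.Agent.SMK

open Finset Pool.Agent.KL Pool.Agent.KLS

/-- orientation of three points -/
def orr (p q r : ℝ × ℝ) : ℝ := (q.1 - p.1) * (r.2 - p.2) - (r.1 - p.1) * (q.2 - p.2)

variable {n : ℕ}

open Classical in
/-- number of lines strictly below the crossing of `x i` and `x j` (if `(x i).1 < (x j).1`) -/
noncomputable def lo (x : Fin n → ℝ × ℝ) (i j : Fin n) : ℕ :=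
  (univ.filter fun m => orr (x i) (x j) (x m) < 0).card

open Classical in
/-- number of lines strictly above the crossing of `x i` and `x j` (if `(x i).1 < (x j).1`) -/
noncomputable def hi (x : Fin n → ℝ × ℝ) (i j : Fin n) : ℕ :=
  (univ.filter fun m => 0 < orr (x i) (x j) (x m)).card

/-- `(i, j)` is an edge: exactly `k` of the other lines are strictly below the crossing and all
others strictly above it -/
def Ed (x : Fin n → ℝ × ℝ) (k : ℕ) (i j : Fin n) : Prop :=
  (x i).1 < (x j).1 ∧ lo x i j = k ∧ hi x i j + k + 2 = n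

/-- abscissa of the crossing -/
noncomputable def cr (p q : ℝ × ℝ) : ℝ := -(q.2 - p.2) / (q.1 - p.1)

theorem ev_cr {p q : ℝ × ℝ} (h : p.1 < q.1) : ev q (cr p q) = ev p (cr p q) := by
  unfold ev cr
  have h1 : q.1 - p.1 ≠ 0 := by linarith
  field_simp
  ring

theorem orr_eq {p q : ℝ × ℝ} (h : p.1 < q.1) (r : ℝ × ℝ) :
    orr p q r = (q.1 - p.1) * (ev r (cr p q) - ev p (cr p q)) := by
  unfold ev cr orr
  have h1 : q.1 - p.1 ≠ 0 := by linarith
  field_simp
  ring

theorem orr_neg {p q : ℝ × ℝ} (h : p.1 < q.1) (r : ℝ × ℝ) :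
    orr p q r < 0 ↔ ev r (cr p q) < ev p (cr p q) := by
  rw [orr_eq h]
  have h1 : 0 < q.1 - p.1 := by linarith
  constructor
  · intro h2
    by_contra h3
    have := mul_nonneg h1.le (sub_nonneg.2 (not_lt.1 h3))
    linarith
  · intro h2
    exact mul_neg_of_pos_of_neg h1 (by linarith)

theorem orr_pos {p q : ℝ × ℝ} (h : p.1 < q.1) (r : ℝ × ℝ) :
    0 < orr p q r ↔ ev p (cr p q) < ev r (cr p q) := by
  rw [orr_eq h]
  have h1 : 0 < q.1 - p.1 := by linarith
  constructor
  · intro h2
    by_contra h3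
    have := mul_nonneg h1.le (sub_nonneg.2 (not_lt.1 h3))
    nlinarith
  · intro h2
    exact mul_pos h1 (by linarith)

theorem orr_left (p q : ℝ × ℝ) : orr p q p = 0 := by unfold orr; ring

theorem orr_right (p q : ℝ × ℝ) : orr p q q = 0 := by unfold orr; ring

theorem orr_swap (p q r : ℝ × ℝ) : orr q p r = - orr p q r := by unfold orr; ring

/-- for an edge, only `i` and `j` are on the line -/
theorem Ed.zero {x : Fin n → ℝ × ℝ} {k : ℕ} {i j : Fin n} (h : Ed x k i j) (m : Fin n)
    (hm : orr (x i) (x j) (x m) = 0) : m = i ∨ m = j := by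
  classical
  obtain ⟨h1, h2, h3⟩ := h
  by_contra hc
  rw [not_or] at hc
  have hij : i ≠ j := by
    rintro rfl
    exact lt_irrefl _ h1
  have hd : Disjoint (univ.filter fun m => orr (x i) (x j) (x m) < 0)
      (univ.filter fun m => 0 < orr (x i) (x j) (x m)) := by
    rw [Finset.disjoint_left]
    intro a ha hb
    rw [Finset.mem_filter] at ha hb
    linarith [ha.2, hb.2]
  have h4 : ({i, j, m} : Finset (Fin n)) ⊆ ((univ.filter fun m => orr (x i) (x j) (x m) < 0) ∪
      (univ.filter fun m => 0 < orr (x i) (x j) (x m)))ᶜ := by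
    intro a ha
    rw [Finset.mem_compl, Finset.mem_union, Finset.mem_filter, Finset.mem_filter]
    have h5 : orr (x i) (x j) (x a) = 0 := by
      rw [Finset.mem_insert, Finset.mem_insert, Finset.mem_singleton] at ha
      rcases ha with rfl | rfl | rfl
      · exact orr_left _ _
      · exact orr_right _ _
      · exact hm
    rw [h5]
    simp
  have h5 := Finset.card_le_card h4
  rw [Finset.card_compl, Finset.card_union_of_disjoint hd, Fintype.card_fin] at h5
  have h6 : ({i, j, m} : Finset (Fin n)).card = 3 := by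
    rw [Finset.card_eq_three]
    exact ⟨i, j, m, hij, Ne.symm hc.1, Ne.symm hc.2, rfl⟩
  have h7 : (univ.filter fun m => orr (x i) (x j) (x m) < 0).card = k := h2
  have h8 : (univ.filter fun m => 0 < orr (x i) (x j) (x m)).card + k + 2 = n := h3
  omega

open Classical in
/-- the exchange argument -/
theorem exchange {x : Fin n → ℝ × ℝ} {t X X' : ℝ} (hX : X < X') {S S' : Finset (Fin n)}
    (hcard : S.card = S'.card)
    (hS : ∀ a ∈ S, ∀ b, b ∉ S → ev (x a) X ≤ ev (x b) X)
    (hS' : ∀ a ∈ S', ∀ b, b ∉ S' → ev (x a) X' ≤ ev (x b) X') :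
    (S'.filter fun m => t ≤ (x m).1).card ≤ (S.filter fun m => t ≤ (x m).1).card := by
  by_contra hc
  rw [not_le] at hc
  obtain ⟨p, hp1, hp2⟩ := Finset.exists_mem_notMem_of_card_lt_card hc
  have h1 : (S.filter fun m => t ≤ (x m).1).card + (S.filter fun m => ¬ t ≤ (x m).1).card
      = S.card := Finset.card_filter_add_card_filter_not _
  have h2 : (S'.filter fun m => t ≤ (x m).1).card + (S'.filter fun m => ¬ t ≤ (x m).1).card
      = S'.card := Finset.card_filter_add_card_filter_not _
  have h3 : (S'.filter fun m => ¬ t ≤ (x m).1).card < (S.filter fun m => ¬ t ≤ (x m).1).card := by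
    omega
  obtain ⟨q, hq1, hq2⟩ := Finset.exists_mem_notMem_of_card_lt_card h3
  rw [Finset.mem_filter] at hp1 hp2 hq1 hq2
  have hpS : p ∉ S := fun h => hp2 ⟨h, hp1.2⟩
  have hqS : q ∉ S' := fun h => hq2 ⟨h, hq1.2⟩
  have e1 := hS q hq1.1 p hpS
  have e2 := hS' p hp1.1 q hqS
  have e3 : (x q).1 < (x p).1 := lt_of_lt_of_le (not_le.1 hq1.2) hp1.2
  unfold ev at e1 e2
  nlinarith

open Classical in
/-- Lovász lemma. -/
theorem lovasz (x : Fin n → ℝ × ℝ) (k : ℕ) (t : ℝ) :
    (univ.filter fun e : Fin n × Fin n => Ed x k e.1 e.2 ∧ (x e.1).1 < t ∧ t ≤ (x e.2).1).card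
      ≤ k + 1 := by
  -- the strictly lower set
  set B : Fin n × Fin n → Finset (Fin n) := fun e =>
    univ.filter fun m => orr (x e.1) (x e.2) (x m) < 0 with hB
  set c : Fin n × Fin n → ℕ := fun e => ((insert e.1 (B e)).filter fun m => t ≤ (x m).1).card
    with hc
  have hBi : ∀ e : Fin n × Fin n, e.1 ∉ B e := by
    intro e
    simp [hB, orr_left]
  have hBj : ∀ e : Fin n × Fin n, e.2 ∉ B e := by
    intro e
    simp [hB, orr_right]
  have hcardB : ∀ e : Fin n × Fin n, Ed x k e.1 e.2 → (B e).card = k := fun e he => he.2.1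
  have hcard1 : ∀ e : Fin n × Fin n, Ed x k e.1 e.2 → (insert e.1 (B e)).card = k + 1 := by
    intro e he
    rw [Finset.card_insert_of_notMem (hBi e), hcardB e he]
  have hcard2 : ∀ e : Fin n × Fin n, Ed x k e.1 e.2 → (insert e.2 (B e)).card = k + 1 := by
    intro e he
    rw [Finset.card_insert_of_notMem (hBj e), hcardB e he]
  -- values
  have hval : ∀ e : Fin n × Fin n, Ed x k e.1 e.2 → ∀ b, b ∉ B e →
      ev (x e.1) (cr (x e.1) (x e.2)) ≤ ev (x b) (cr (x e.1) (x e.2)) := by
    intro e he b hb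
    rw [hB, Finset.mem_filter] at hb
    have hb' : ¬ orr (x e.1) (x e.2) (x b) < 0 := fun h => hb ⟨mem_univ _, h⟩
    rw [orr_neg he.1] at hb'
    exact not_lt.1 hb'
  have hval' : ∀ e : Fin n × Fin n, Ed x k e.1 e.2 → ∀ a, a ∈ B e →
      ev (x a) (cr (x e.1) (x e.2)) < ev (x e.1) (cr (x e.1) (x e.2)) := by
    intro e he a ha
    rw [hB, Finset.mem_filter] at ha
    exact (orr_neg he.1 _).1 ha.2
  have hlow1 : ∀ e : Fin n × Fin n, Ed x k e.1 e.2 → ∀ a ∈ insert e.1 (B e),
      ∀ b, b ∉ insert e.1 (B e) → ev (x a) (cr (x e.1) (x e.2)) ≤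
        ev (x b) (cr (x e.1) (x e.2)) := by
    intro e he a ha b hb
    rw [Finset.mem_insert, not_or] at hb
    rw [Finset.mem_insert] at ha
    rcases ha with rfl | ha
    · exact hval e he b hb.2
    · exact (hval' e he a ha).le.trans (hval e he b hb.2)
  have hlow2 : ∀ e : Fin n × Fin n, Ed x k e.1 e.2 → ∀ a ∈ insert e.2 (B e),
      ∀ b, b ∉ insert e.2 (B e) → ev (x a) (cr (x e.1) (x e.2)) ≤
        ev (x b) (cr (x e.1) (x e.2)) := by
    intro e he a ha b hb
    rw [Finset.mem_insert, not_or] at hb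
    rw [Finset.mem_insert] at ha
    rcases ha with rfl | ha
    · rw [ev_cr he.1]
      exact hval e he b hb.2
    · exact (hval' e he a ha).le.trans (hval e he b hb.2)
  have hdrop : ∀ e : Fin n × Fin n, Ed x k e.1 e.2 → (x e.1).1 < t → t ≤ (x e.2).1 →
      ((insert e.2 (B e)).filter fun m => t ≤ (x m).1).card = c e + 1 := by
    intro e he h1 h2
    rw [hc]
    simp only
    rw [Finset.filter_insert, if_pos h2, Finset.filter_insert, if_neg (not_le.2 h1),
      Finset.card_insert_of_notMem]
    intro h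
    exact hBj e (Finset.mem_filter.1 h).1
  -- edges with the same abscissa agree
  have hsame : ∀ e e' : Fin n × Fin n, Ed x k e.1 e.2 → Ed x k e'.1 e'.2 →
      cr (x e.1) (x e.2) = cr (x e'.1) (x e'.2) → e = e' := by
    have key : ∀ e e' : Fin n × Fin n, Ed x k e.1 e.2 → Ed x k e'.1 e'.2 →
        cr (x e.1) (x e.2) = cr (x e'.1) (x e'.2) →
        ¬ ev (x e.1) (cr (x e.1) (x e.2)) < ev (x e'.1) (cr (x e.1) (x e.2)) := by
      intro e e' he he' hX hlt
      have h1 : insert e.1 (B e) ⊆ B e' := by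
        intro a ha
        rw [Finset.mem_insert] at ha
        rw [hB, Finset.mem_filter]
        refine ⟨mem_univ _, ?_⟩
        rw [orr_neg he'.1, ← hX]
        rcases ha with rfl | ha
        · exact hlt
        · exact (hval' e he a ha).trans hlt
      have h2 := Finset.card_le_card h1
      rw [hcard1 e he, hcardB e' he'] at h2
      omega
    intro e e' he he' hX
    have h1 : ev (x e.1) (cr (x e.1) (x e.2)) = ev (x e'.1) (cr (x e.1) (x e.2)) := by
      refine le_antisymm (not_lt.1 ?_) (not_lt.1 (key e e' he he' hX))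
      have := key e' e he' he hX.symm
      rw [← hX] at this
      exact this
    have hz : ∀ m, orr (x e.1) (x e.2) (x m) = 0 ↔
        ev (x m) (cr (x e.1) (x e.2)) = ev (x e.1) (cr (x e.1) (x e.2)) := by
      intro m
      rw [orr_eq he.1]
      have h3 : (x e.2).1 - (x e.1).1 ≠ 0 := by linarith [he.1]
      constructor
      · intro h
        rcases mul_eq_zero.1 h with h | h
        · exact absurd h h3
        · linarith
      · intro h
        rw [h, sub_self, mul_zero]
    have h2 := he.zero e'.1 ((hz _).2 h1.symm)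
    have h3 := he.zero e'.2 ((hz _).2 (by
      rw [hX, ev_cr he'.1, ← hX, h1]))
    have h4 := he.1
    have h5 := he'.1
    rcases h2 with h2 | h2 <;> rcases h3 with h3 | h3
    · rw [h2, h3] at h5; exact absurd h5 (lt_irrefl _)
    · exact Prod.ext h2.symm h3.symm
    · rw [h2, h3] at h5; exact absurd h4 (not_lt.2 h5.le)
    · rw [h2, h3] at h5; exact absurd h5 (lt_irrefl _)
  -- strict decrease
  have hstrict : ∀ e e' : Fin n × Fin n, Ed x k e.1 e.2 → Ed x k e'.1 e'.2 →
      (x e'.1).1 < t → t ≤ (x e'.2).1 →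
      cr (x e.1) (x e.2) < cr (x e'.1) (x e'.2) → c e' < c e := by
    intro e e' he he' h1 h2 hX
    have h3 := exchange (x := x) (t := t) hX ((hcard1 e he).trans (hcard2 e' he').symm)
      (hlow1 e he) (hlow2 e' he')
    rw [hdrop e' he' h1 h2] at h3
    exact h3
  have hmaps : ∀ e ∈ (univ.filter fun e : Fin n × Fin n => Ed x k e.1 e.2 ∧ (x e.1).1 < t ∧
      t ≤ (x e.2).1), c e ∈ Finset.range (k + 1) := by
    intro e he
    obtain ⟨he1, he2, he3⟩ := (Finset.mem_filter.1 he).2
    rw [Finset.mem_range]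
    have h1 := hdrop e he1 he2 he3
    have h2 := Finset.card_filter_le (insert e.2 (B e)) fun m => t ≤ (x m).1
    rw [hcard2 e he1] at h2
    omega
  have hinj : Set.InjOn c (univ.filter fun e : Fin n × Fin n => Ed x k e.1 e.2 ∧
      (x e.1).1 < t ∧ t ≤ (x e.2).1 : Finset _) := by
    intro e he e' he' hcc
    rw [Finset.mem_coe, Finset.mem_filter] at he he'
    rcases lt_trichotomy (cr (x e.1) (x e.2)) (cr (x e'.1) (x e'.2)) with h | h | h
    · have := hstrict e e' he.2.1 he'.2.1 he'.2.2.1 he'.2.2.2 h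
      omega
    · exact hsame e e' he.2.1 he'.2.1 h
    · have := hstrict e' e he'.2.1 he.2.1 he.2.2.1 he.2.2.2 h
      omega
  have := Finset.card_le_card_of_injOn c hmaps hinj
  rwa [Finset.card_range] at this

end Pool.Agent.SMK
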