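import Pool.Agent.SMK.Det

/-!
# Long edges, flat and steep edges, vertices of the level
-/

namespace Pool.Agent.SMK

open Finset Pool.Agent.KL Pool.Agent.KLS

variable {n : ℕ}

/-- reflection of the intercepts -/
def refl (x : Fin n → ℝ × ℝ) : Fin n → ℝ × ℝ := fun i => ((x i).1, -(x i).2)

/-- exchange of the two coordinates -/
def swp (x : Fin n → ℝ × ℝ) : Fin n → ℝ × ℝ := fun i => ((x i).2, (x i).1)

theorem orr_refl (x : Fin n → ℝ × ℝ) (i j m : Fin n) :
    orr (refl x i) (refl x j) (refl x m) = - orr (x i) (x j) (x m) := by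
  unfold orr refl; ring

theorem orr_swp (x : Fin n → ℝ × ℝ) (i j m : Fin n) :
    orr (swp x i) (swp x j) (swp x m) = - orr (x i) (x j) (x m) := by
  unfold orr swp; ring

theorem Ed.two_le {x : Fin n → ℝ × ℝ} {k : ℕ} {i j : Fin n} (h : Ed x k i j) : k + 2 ≤ n := by
  have := h.2.2
  omega

theorem Ed.refl {x : Fin n → ℝ × ℝ} {k : ℕ} {i j : Fin n} (h : Ed x k i j) :
    Ed (refl x) (n - 2 - k) i j := by
  obtain ⟨h1, h2, h3⟩ := h
  refine ⟨h1, ?_, ?_⟩
  · unfold lo
    simp only [orr_refl, neg_lt_zero]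
    have : hi x i j = (univ.filter fun m => 0 < orr (x i) (x j) (x m)).card := rfl
    rw [← this]
    omega
  · unfold hi
    simp only [orr_refl, neg_pos]
    have : lo x i j = (univ.filter fun m => orr (x i) (x j) (x m) < 0).card := rfl
    rw [← this]
    omega

theorem Ed.swp {x : Fin n → ℝ × ℝ} {k : ℕ} {i j : Fin n} (h : Ed x k i j)
    (hb : (x i).2 < (x j).2) : Ed (swp x) (n - 2 - k) i j := by
  obtain ⟨h1, h2, h3⟩ := h
  refine ⟨hb, ?_, ?_⟩
  · unfold lo
    simp only [orr_swp, neg_lt_zero]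
    have : hi x i j = (univ.filter fun m => 0 < orr (x i) (x j) (x m)).card := rfl
    rw [← this]
    omega
  · unfold hi
    simp only [orr_swp, neg_pos]
    have : lo x i j = (univ.filter fun m => orr (x i) (x j) (x m) < 0).card := rfl
    rw [← this]
    omega

theorem Ed.swp' {x : Fin n → ℝ × ℝ} {k : ℕ} {i j : Fin n} (h : Ed x k i j)
    (hb : (x j).2 < (x i).2) : Ed (Pool.Agent.SMK.swp x) k j i := by
  obtain ⟨h1, h2, h3⟩ := h
  refine ⟨hb, ?_, ?_⟩
  · unfold lo
    simp only [orr_swap (Pool.Agent.SMK.swp x i), orr_swp, neg_neg]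
    exact h2
  · unfold hi
    simp only [orr_swap (Pool.Agent.SMK.swp x i), orr_swp, neg_neg]
    exact h3

open Classical in
/-- Lovász lemma, second form. -/
theorem lovasz' (x : Fin n → ℝ × ℝ) (k : ℕ) (t : ℝ) :
    (univ.filter fun e : Fin n × Fin n => Ed x k e.1 e.2 ∧ (x e.1).1 < t ∧ t ≤ (x e.2).1).card
      ≤ n - 1 - k := by
  by_cases hk : k + 2 ≤ n
  · refine (Finset.card_le_card ?_).trans ((lovasz (refl x) (n - 2 - k) t).trans (by omega))
    intro e he
    rw [Finset.mem_filter] at he ⊢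
    exact ⟨mem_univ _, he.2.1.refl, he.2.2⟩
  · rw [Finset.card_eq_zero.2]
    · exact Nat.zero_le _
    · rw [Finset.filter_eq_empty_iff]
      intro e _ he
      exact hk he.1.two_le

open Classical in
/-- long edges -/
theorem long_edges (x : Fin n → ℝ × ℝ) (k M : ℕ) {S r : ℝ} (hr : 0 < r) (hS0 : 0 ≤ S)
    (hM : k + 1 ≤ M ∨ n - 1 - k ≤ M) (hx : ∀ i, |(x i).1| ≤ S) :
    ((univ.filter fun e : Fin n × Fin n => Ed x k e.1 e.2 ∧ r ≤ (x e.2).1 - (x e.1).1).card : ℝ)
      ≤ M * (2 * S / r + 2) := by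
  have hS : ∀ i : Fin n, -S ≤ (x i).1 ∧ (x i).1 ≤ S := fun i => abs_le.1 (hx i)
  set I : Finset ℤ := Finset.Icc ⌊-S / r⌋ ⌊S / r⌋ with hI
  have hcover : (univ.filter fun e : Fin n × Fin n => Ed x k e.1 e.2 ∧
      r ≤ (x e.2).1 - (x e.1).1) ⊆ I.biUnion fun q => univ.filter fun e : Fin n × Fin n =>
        Ed x k e.1 e.2 ∧ (x e.1).1 < q * r ∧ q * r ≤ (x e.2).1 := by
    intro e he
    rw [Finset.mem_filter] at he
    obtain ⟨-, he1, he2⟩ := he
    rw [Finset.mem_biUnion]
    refine ⟨⌊(x e.2).1 / r⌋, ?_, ?_⟩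
    · rw [hI, Finset.mem_Icc]
      constructor
      · exact Int.floor_le_floor (div_le_div_of_nonneg_right (hS _).1 hr.le)
      · exact Int.floor_le_floor (div_le_div_of_nonneg_right (hS _).2 hr.le)
    · rw [Finset.mem_filter]
      refine ⟨mem_univ _, he1, ?_, ?_⟩
      · have h1 : (x e.2).1 / r < ⌊(x e.2).1 / r⌋ + 1 := Int.lt_floor_add_one _
        rw [div_lt_iff₀ hr] at h1
        nlinarith
      · have h1 : (⌊(x e.2).1 / r⌋ : ℝ) ≤ (x e.2).1 / r := Int.floor_le _
        rwa [le_div_iff₀ hr] at h1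
  have h1 : (univ.filter fun e : Fin n × Fin n => Ed x k e.1 e.2 ∧
      r ≤ (x e.2).1 - (x e.1).1).card ≤ I.card * M := by
    refine (Finset.card_le_card hcover).trans ?_
    refine Finset.card_biUnion_le.trans ?_
    refine Finset.sum_le_card_nsmul _ _ _ ?_
    intro q _
    rcases hM with hM | hM
    · exact (lovasz x k (q * r)).trans hM
    · exact (lovasz' x k (q * r)).trans hM
  have h2 : (I.card : ℝ) ≤ 2 * S / r + 2 := by
    rw [hI, Int.card_Icc]
    have h3 : 0 ≤ ⌊S / r⌋ + 1 - ⌊-S / r⌋ := by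
      have : ⌊-S / r⌋ ≤ ⌊S / r⌋ :=
        Int.floor_le_floor (div_le_div_of_nonneg_right (by linarith) hr.le)
      omega
    have h4 : (((⌊S / r⌋ + 1 - ⌊-S / r⌋).toNat : ℕ) : ℝ) = ((⌊S / r⌋ + 1 - ⌊-S / r⌋ : ℤ) : ℝ) := by
      rw [← Int.cast_natCast, Int.toNat_of_nonneg h3]
    rw [h4]
    push_cast
    have h5 : (⌊S / r⌋ : ℝ) ≤ S / r := Int.floor_le _
    have h6 : -S / r < (⌊-S / r⌋ : ℝ) + 1 := Int.lt_floor_add_one _
    have h7 : -S / r = -(S / r) := neg_div _ _
    have h8 : 2 * S / r = S / r + S / r := by ring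
    rw [h8]
    linarith
  calc ((univ.filter fun e : Fin n × Fin n => Ed x k e.1 e.2 ∧
      r ≤ (x e.2).1 - (x e.1).1).card : ℝ) ≤ ((I.card * M : ℕ) : ℝ) := by exact_mod_cast h1
    _ = M * (I.card : ℝ) := by push_cast; ring
    _ ≤ M * (2 * S / r + 2) := mul_le_mul_of_nonneg_left h2 (Nat.cast_nonneg _)

open Classical in
/-- flat edges -/
noncomputable def Fl (x : Fin n → ℝ × ℝ) (k : ℕ) : ℕ :=
  (univ.filter fun e : Fin n × Fin n => Ed x k e.1 e.2 ∧
    |(x e.2).2 - (x e.1).2| ≤ (x e.2).1 - (x e.1).1).card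

open Classical in
/-- all edges are flat after an exchange of the coordinates or before -/
theorem edges_le (x : Fin n → ℝ × ℝ) (k : ℕ) :
    (univ.filter fun e : Fin n × Fin n => Ed x k e.1 e.2).card ≤
      Fl x k + (Fl (swp x) k + Fl (swp x) (n - 2 - k)) := by
  have h1 : (univ.filter fun e : Fin n × Fin n => Ed x k e.1 e.2) ⊆
      (univ.filter fun e : Fin n × Fin n => Ed x k e.1 e.2 ∧
        |(x e.2).2 - (x e.1).2| ≤ (x e.2).1 - (x e.1).1) ∪
      (((univ.filter fun e : Fin n × Fin n => Ed (swp x) k e.1 e.2 ∧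
        |(swp x e.2).2 - (swp x e.1).2| ≤ (swp x e.2).1 - (swp x e.1).1).image Prod.swap) ∪
      (univ.filter fun e : Fin n × Fin n => Ed (swp x) (n - 2 - k) e.1 e.2 ∧
        |(swp x e.2).2 - (swp x e.1).2| ≤ (swp x e.2).1 - (swp x e.1).1)) := by
    intro e he
    rw [Finset.mem_filter] at he
    have he := he.2
    have hlt := he.1
    rw [Finset.mem_union, Finset.mem_union]
    by_cases hf : |(x e.2).2 - (x e.1).2| ≤ (x e.2).1 - (x e.1).1
    · left
      rw [Finset.mem_filter]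
      exact ⟨mem_univ _, he, hf⟩
    right
    rw [not_le] at hf
    rcases lt_trichotomy (x e.1).2 (x e.2).2 with h | h | h
    · right
      rw [Finset.mem_filter]
      refine ⟨mem_univ _, he.swp h, ?_⟩
      rw [abs_of_pos (sub_pos.2 h)] at hf
      show |(x e.2).1 - (x e.1).1| ≤ (x e.2).2 - (x e.1).2
      rw [abs_of_pos (sub_pos.2 hlt)]
      exact hf.le
    · rw [h, sub_self, abs_zero] at hf
      linarith
    · left
      rw [Finset.mem_image]
      refine ⟨(e.2, e.1), ?_, rfl⟩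
      rw [Finset.mem_filter]
      refine ⟨mem_univ _, he.swp' h, ?_⟩
      rw [abs_of_neg (sub_neg.2 h)] at hf
      show |(x e.1).1 - (x e.2).1| ≤ (x e.1).2 - (x e.2).2
      rw [abs_of_neg (sub_neg.2 hlt)]
      linarith
  refine (Finset.card_le_card h1).trans ((Finset.card_union_le _ _).trans ?_)
  refine Nat.add_le_add (le_of_eq rfl) ((Finset.card_union_le _ _).trans ?_)
  exact Nat.add_le_add Finset.card_image_le (le_of_eq rfl)

/-- general position -/
def GP (x : Fin n → ℝ × ℝ) : Prop :=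
  Function.Injective x ∧
  ∀ i j m, i ≠ m → j ≠ m → (x i).1 < (x j).1 → orr (x i) (x j) (x m) ≠ 0

theorem GP.inj {x : Fin n → ℝ × ℝ} (h : GP x) : Function.Injective x := h.1

theorem GP.lohi {x : Fin n → ℝ × ℝ} (h : GP x) {i j : Fin n} (hlt : (x i).1 < (x j).1) :
    hi x i j + lo x i j + 2 = n := by
  classical
  have hij : i ≠ j := by
    rintro rfl
    exact lt_irrefl _ hlt
  have hd : Disjoint (univ.filter fun m => orr (x i) (x j) (x m) < 0)
      (univ.filter fun m => 0 < orr (x i) (x j) (x m)) := by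
    rw [Finset.disjoint_left]
    intro a ha hb
    rw [Finset.mem_filter] at ha hb
    linarith [ha.2, hb.2]
  have h4 : ({i, j} : Finset (Fin n)) = ((univ.filter fun m => orr (x i) (x j) (x m) < 0) ∪
      (univ.filter fun m => 0 < orr (x i) (x j) (x m)))ᶜ := by
    ext a
    rw [Finset.mem_compl, Finset.mem_union, Finset.mem_filter, Finset.mem_filter,
      Finset.mem_insert, Finset.mem_singleton]
    constructor
    · rintro (rfl | rfl)
      · rw [orr_left]; simp
      · rw [orr_right]; simp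
    · intro ha
      by_contra hc
      rw [not_or] at hc
      have h5 := h.2 i j a (Ne.symm hc.1) (Ne.symm hc.2) hlt
      rcases lt_or_gt_of_ne h5 with h6 | h6
      · exact ha (Or.inl ⟨mem_univ _, h6⟩)
      · exact ha (Or.inr ⟨mem_univ _, h6⟩)
  have h5 := congrArg Finset.card h4
  rw [Finset.card_compl, Finset.card_union_of_disjoint hd, Fintype.card_fin,
    Finset.card_pair hij] at h5
  have h6 : (univ.filter fun m => orr (x i) (x j) (x m) < 0).card +
      (univ.filter fun m => 0 < orr (x i) (x j) (x m)).card ≤ n := by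
    rw [← Finset.card_union_of_disjoint hd]
    exact (Finset.card_le_univ _).trans (by simp)
  have h7 : (univ.filter fun m => orr (x i) (x j) (x m) < 0).card = lo x i j := rfl
  have h8 : (univ.filter fun m => 0 < orr (x i) (x j) (x m)).card = hi x i j := rfl
  rw [h7, h8] at h5 h6
  omega

end Pool.Agent.SMK
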