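import Pool.Agent.SMK.Main

/-!
# Assembly
-/

namespace Pool.Agent.SMK

open MeasureTheory Pool.Agent.KL
open scoped ENNReal

variable {n : ℕ} {S : ℝ} {P δ : Fin n → ℝ} {c : Fin n → ℝ × ℝ} {ν : Fin n → Measure ℝ}
  [∀ i, SFinite (ν i)] {f : Fin n → ℝ × ℝ → ℝ≥0∞}

/-! ### General position -/

theorem null_of_section (h : Noise S P δ c ν f) (i : Fin n) {S : Set (Fin n → ℝ × ℝ)}
    (hS : MeasurableSet S) (hz : ∀ x, law ν f i {u | Function.update x i u ∈ S} = 0) :
    Measure.pi (law ν f) S = 0 := by
  have := law_prob h.one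
  rw [← lintegral_indicator_one hS, resample _ i (measurable_one.indicator hS)]
  have hm : ∀ x, MeasurableSet {u | Function.update x i u ∈ S} := by
    intro x
    exact ((mp_update (law ν f) i).measurable.comp
      (by fun_prop : Measurable fun u : ℝ × ℝ => (x, u))) hS
  have h2 : ∀ x, ∫⁻ u, S.indicator (1 : (Fin n → ℝ × ℝ) → ℝ≥0∞) (Function.update x i u)
      ∂(law ν f i) = 0 := by
    intro x
    have h3 : ∀ u, S.indicator (1 : (Fin n → ℝ × ℝ) → ℝ≥0∞) (Function.update x i u) =
        ({u | Function.update x i u ∈ S} : Set (ℝ × ℝ)).indicator 1 u := by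
      intro u
      rfl
    simp_rw [h3]
    rw [lintegral_indicator_one (hm x), hz x]
  simp_rw [h2]
  simp

theorem ae_inj (h : Noise S P δ c ν f) : ∀ᵐ x ∂(Measure.pi (law ν f)), Function.Injective x := by
  have h0 : ∀ᵐ x ∂(Measure.pi (law ν f)), ∀ i j : Fin n, i ≠ j → x i ≠ x j := by
    rw [ae_all_iff]; intro i
    rw [ae_all_iff]; intro j
    by_cases hij : i = j
    · exact Filter.Eventually.of_forall fun x h => absurd hij h
    have h1 : ∀ᵐ x ∂(Measure.pi (law ν f)), ¬ (x i).2 = (x j).2 := by
      rw [ae_iff]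
      simp only [not_not]
      refine null_of_section h i (measurableSet_eq_fun (by fun_prop) (by fun_prop)) fun x => ?_
      simp only [Set.mem_ofPred_eq, Function.update_self, Function.update_of_ne (Ne.symm hij)]
      have h2 := law_line (ν := ν) h.meas i 0 (x j).2
      unfold ev at h2
      simpa using h2
    filter_upwards [h1] with x hx _ h3
    exact hx (by rw [h3])
  filter_upwards [h0] with x hx i j hij
  by_contra hne
  exact hx i j hne hij

theorem ae_orr (h : Noise S P δ c ν f) : ∀ᵐ x ∂(Measure.pi (law ν f)),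
    ∀ i j m : Fin n, i ≠ m → j ≠ m → (x i).1 < (x j).1 → orr (x i) (x j) (x m) ≠ 0 := by
  rw [ae_all_iff]; intro i
  rw [ae_all_iff]; intro j
  rw [ae_all_iff]; intro m
  by_cases him : i = m
  · exact Filter.Eventually.of_forall fun x h => absurd him h
  by_cases hjm : j = m
  · exact Filter.Eventually.of_forall fun x _ h => absurd hjm h
  have h1 : ∀ᵐ x ∂(Measure.pi (law ν f)), ¬ ((x i).1 < (x j).1 ∧ orr (x i) (x j) (x m) = 0) := by
    rw [ae_iff]
    simp only [not_not]
    refine null_of_section h m ?_ fun x => ?_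
    · have m1 : Measurable fun x : Fin n → ℝ × ℝ => (x i).1 := by fun_prop
      have m2 : Measurable fun x : Fin n → ℝ × ℝ => (x j).1 := by fun_prop
      have m3 : Measurable fun x : Fin n → ℝ × ℝ => orr (x i) (x j) (x m) := by
        unfold orr
        fun_prop
      exact (measurableSet_lt m1 m2).inter (measurableSet_eq_fun m3 measurable_const)
    · simp only [Set.mem_ofPred_eq, Function.update_self, Function.update_of_ne him,
        Function.update_of_ne hjm]
      refine measure_mono_null ?_ (law_line h.meas m (cr (x i) (x j)) (ev (x i) (cr (x i) (x j))))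
      rintro u ⟨h2, h3⟩
      rw [orr_eq h2] at h3
      rcases mul_eq_zero.1 h3 with h4 | h4
      · linarith
      · exact sub_eq_zero.1 h4
  filter_upwards [h1] with x hx _ _ h2 h3
  exact hx ⟨h2, h3⟩

theorem ae_GP (h : Noise S P δ c ν f) : ∀ᵐ x ∂(Measure.pi (law ν f)), GP x := by
  filter_upwards [ae_inj h, ae_orr h] with x h1 h2
  exact ⟨h1, h2⟩

theorem ae_bdd (h : Noise S P δ c ν f) : ∀ᵐ x ∂(Measure.pi (law ν f)), ∀ i, |(x i).1| ≤ S := by
  have := law_prob h.one
  rw [ae_all_iff]; intro i
  rw [ae_iff]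
  have hm : MeasurableSet {x : Fin n → ℝ × ℝ | ¬ |(x i).1| ≤ S} := by
    have m1 : Measurable fun x : Fin n → ℝ × ℝ => |(x i).1| := by fun_prop
    exact (measurableSet_le m1 measurable_const).compl
  refine null_of_section h i hm fun x => ?_
  simp only [Set.mem_ofPred_eq, Function.update_self]
  have hm2 : MeasurableSet {u : ℝ × ℝ | ¬ |u.1| ≤ S} := by
    have m1 : Measurable fun u : ℝ × ℝ => |u.1| := measurable_fst.abs
    exact (measurableSet_le m1 measurable_const).compl
  unfold law
  rw [withDensity_apply _ hm2]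
  rw [setLIntegral_eq_zero_iff hm2 (h.meas i)]
  refine Filter.Eventually.of_forall fun u hu => ?_
  by_contra hne
  exact hu (h.range i u hne)

/-! ### Measurability of the counts -/

theorem measurable_orr (i j m : Fin n) :
    Measurable fun x : Fin n → ℝ × ℝ => orr (x i) (x j) (x m) := by
  unfold orr
  fun_prop

theorem measurable_lo (i j : Fin n) : Measurable fun x : Fin n → ℝ × ℝ => lo x i j := by
  classical
  unfold lo
  simp only [Finset.card_filter]
  refine Finset.measurable_sum _ fun m _ => ?_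
  exact Measurable.ite (measurableSet_lt (measurable_orr i j m) measurable_const)
    measurable_const measurable_const

theorem measurable_hi (i j : Fin n) : Measurable fun x : Fin n → ℝ × ℝ => hi x i j := by
  classical
  unfold hi
  simp only [Finset.card_filter]
  refine Finset.measurable_sum _ fun m _ => ?_
  exact Measurable.ite (measurableSet_lt measurable_const (measurable_orr i j m))
    measurable_const measurable_const

theorem measurable_ltc (i j : Fin n) : MeasurableSet {x : Fin n → ℝ × ℝ | (x i).1 < (x j).1} :=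
  measurableSet_lt (by fun_prop) (by fun_prop)

theorem measurableSet_Ed (k : ℕ) (i j : Fin n) :
    MeasurableSet {x : Fin n → ℝ × ℝ | Ed x k i j} := by
  have h1 : MeasurableSet ((fun x : Fin n → ℝ × ℝ => lo x i j) ⁻¹' {k}) :=
    measurable_lo i j (measurableSet_singleton k)
  have h2 : MeasurableSet ((fun x : Fin n → ℝ × ℝ => hi x i j) ⁻¹' {a | a + k + 2 = n}) :=
    measurable_hi i j (MeasurableSet.of_discrete)
  exact (measurable_ltc i j).inter (h1.inter h2)

theorem measurable_Fl (k : ℕ) : Measurable fun x : Fin n → ℝ × ℝ => Fl x k := by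
  classical
  unfold Fl
  simp only [Finset.card_filter]
  refine Finset.measurable_sum _ fun e _ => ?_
  have m1 : Measurable fun x : Fin n → ℝ × ℝ => |(x e.2).2 - (x e.1).2| := by fun_prop
  have m2 : Measurable fun x : Fin n → ℝ × ℝ => (x e.2).1 - (x e.1).1 := by fun_prop
  exact Measurable.ite ((measurableSet_Ed k e.1 e.2).inter (measurableSet_le m1 m2))
    measurable_const measurable_const

theorem measurable_pc (k : ℕ) : Measurable fun x : Fin n → ℝ × ℝ => pc x k := by
  classical
  unfold pc
  simp only [Finset.card_filter]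
  refine Finset.measurable_sum _ fun e _ => ?_
  have h1 : MeasurableSet ((fun x : Fin n → ℝ × ℝ => lo x e.1 e.2) ⁻¹' {k}) :=
    measurable_lo e.1 e.2 (measurableSet_singleton k)
  have h2 : MeasurableSet ((fun x : Fin n → ℝ × ℝ => lo x e.1 e.2) ⁻¹' {a | a + 1 = k}) :=
    measurable_lo e.1 e.2 (MeasurableSet.of_discrete)
  exact Measurable.ite ((measurable_ltc e.1 e.2).inter (h1.union h2))
    measurable_const measurable_const

theorem measurable_swp : Measurable (swp : (Fin n → ℝ × ℝ) → Fin n → ℝ × ℝ) := by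
  unfold swp
  fun_prop

/-! ### Flat edges -/

theorem sh_of_ed {x : Fin n → ℝ × ℝ} {k : ℕ} {i j : Fin n} {r : ℝ} (h : Ed x k i j)
    (hf : |(x j).2 - (x i).2| ≤ (x j).1 - (x i).1) (hr : (x j).1 - (x i).1 < r) :
    Sh r k x i j := by
  classical
  have hlt := h.1
  refine ⟨hlt, hr, ?_, ?_⟩
  · unfold cr
    rw [abs_div, abs_neg, abs_of_pos (sub_pos.2 hlt), div_le_one (sub_pos.2 hlt)]
    exact hf
  · rw [← h.2.1]
    unfold cnt lo
    congr 1
    ext m
    simp only [Finset.mem_filter, Finset.mem_erase, Finset.mem_univ, true_and, and_true]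
    rw [orr_neg hlt]
    constructor
    · exact fun h => h.2
    · intro h2
      refine ⟨⟨?_, ?_⟩, h2⟩
      · rintro rfl
        rw [ev_cr hlt] at h2
        exact lt_irrefl _ h2
      · rintro rfl
        exact lt_irrefl _ h2

open Classical in
theorem flat_count {x : Fin n → ℝ × ℝ} (hx : ∀ i, |(x i).1| ≤ S) (hS : 0 ≤ S) (k M : ℕ)
    {r : ℝ} (hr : 0 < r) (hM : k + 1 ≤ M ∨ n - 1 - k ≤ M) :
    (Fl x k : ℝ≥0∞) ≤ ENNReal.ofReal (M * (2 * S / r + 2)) +
      ∑ i, ∑ j ∈ Finset.univ.erase i, (if Sh r k x i j then 1 else 0) := by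
  have h1 : Fl x k ≤ (Finset.univ.filter fun e : Fin n × Fin n => Ed x k e.1 e.2 ∧
      r ≤ (x e.2).1 - (x e.1).1).card +
      (Finset.univ.filter fun e : Fin n × Fin n => e.2 ≠ e.1 ∧ Sh r k x e.1 e.2).card := by
    unfold Fl
    refine (Finset.card_le_card ?_).trans (Finset.card_union_le _ _)
    intro e he
    rw [Finset.mem_filter] at he
    rw [Finset.mem_union, Finset.mem_filter, Finset.mem_filter]
    by_cases hr' : r ≤ (x e.2).1 - (x e.1).1
    · exact Or.inl ⟨Finset.mem_univ _, he.2.1, hr'⟩
    · refine Or.inr ⟨Finset.mem_univ _, ?_, sh_of_ed he.2.1 he.2.2 (not_le.1 hr')⟩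
      intro h2
      have := he.2.1.1
      rw [h2] at this
      exact lt_irrefl _ this
  have h2 := long_edges x k M (S := S) hr hS hM hx
  have h3 : ((Finset.univ.filter fun e : Fin n × Fin n => Ed x k e.1 e.2 ∧
      r ≤ (x e.2).1 - (x e.1).1).card : ℝ≥0∞) ≤ ENNReal.ofReal (M * (2 * S / r + 2)) := by
    rw [← ENNReal.ofReal_natCast]
    exact ENNReal.ofReal_le_ofReal h2
  have h4 : ((Finset.univ.filter fun e : Fin n × Fin n => e.2 ≠ e.1 ∧
      Sh r k x e.1 e.2).card : ℝ≥0∞) =
      ∑ i, ∑ j ∈ Finset.univ.erase i, (if Sh r k x i j then 1 else 0) := by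
    rw [Finset.card_filter]
    push_cast
    rw [← Finset.univ_product_univ, Finset.sum_product]
    refine Finset.sum_congr rfl fun i _ => ?_
    rw [← Finset.sum_filter_add_sum_filter_not Finset.univ (fun j => j ≠ i)]
    have e1 : ∑ j ∈ Finset.univ.filter (fun j => ¬ j ≠ i),
        (if j ≠ i ∧ Sh r k x i j then (1 : ℝ≥0∞) else 0) = 0 := by
      refine Finset.sum_eq_zero fun j hj => ?_
      rw [Finset.mem_filter] at hj
      rw [if_neg]
      exact fun h => hj.2 h.1
    simp only at e1 ⊢
    rw [e1, add_zero]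
    have e2 : Finset.univ.filter (fun j => j ≠ i) = Finset.univ.erase i := by
      ext j
      simp
    rw [e2]
    refine Finset.sum_congr rfl fun j hj => ?_
    have hne := Finset.ne_of_mem_erase hj
    simp [hne]
  calc (Fl x k : ℝ≥0∞) ≤ (((Finset.univ.filter fun e : Fin n × Fin n => Ed x k e.1 e.2 ∧
      r ≤ (x e.2).1 - (x e.1).1).card + (Finset.univ.filter fun e : Fin n × Fin n =>
        e.2 ≠ e.1 ∧ Sh r k x e.1 e.2).card : ℕ) : ℝ≥0∞) := by exact_mod_cast h1
    _ ≤ _ := by
      push_cast
      rw [← h4]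
      gcongr

end Pool.Agent.SMK
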