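import Pool.Agent.SMK.Final

/-!
# Smoothed analysis of the `k`-level: flat edges, general noise
-/

namespace Pool.Agent.SMK

open MeasureTheory Pool.Agent.KL
open scoped ENNReal

variable {n : ℕ} {S : ℝ} {P δ : Fin n → ℝ} {c : Fin n → ℝ × ℝ} {ν : Fin n → Measure ℝ}
  [∀ i, SFinite (ν i)] {f : Fin n → ℝ × ℝ → ℝ≥0∞}

theorem measurableSet_Sh (r : ℝ) (k : ℕ) (i j : Fin n) :
    MeasurableSet {x : Fin n → ℝ × ℝ | Sh r k x i j} := by
  have m1 : Measurable fun x : Fin n → ℝ × ℝ => (x j).1 - (x i).1 := by fun_prop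
  have m2 : Measurable fun x : Fin n → ℝ × ℝ => cr (x i) (x j) := by
    unfold cr
    fun_prop
  have m2' : Measurable fun x : Fin n → ℝ × ℝ => ev (x i) (cr (x i) (x j)) := by
    unfold ev
    fun_prop
  have m3 : Measurable fun x : Fin n → ℝ × ℝ => cnt ((Finset.univ.erase i).erase j)
      (cr (x i) (x j)) (ev (x i) (cr (x i) (x j))) x := by
    exact (measurable_cnt ((Finset.univ.erase i).erase j)).comp
      (g := fun z => cnt ((Finset.univ.erase i).erase j) z.1.1 z.1.2 z.2)
      (f := fun x : Fin n → ℝ × ℝ => ((cr (x i) (x j), ev (x i) (cr (x i) (x j))), x))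
      ((m2.prodMk m2').prodMk measurable_id)
  exact (measurable_ltc i j).inter ((measurableSet_lt m1 measurable_const).inter
    ((measurableSet_le m2.abs measurable_const).inter (m3 (measurableSet_singleton k))))

theorem Noise.Q_nonneg (h : Noise S P δ c ν f) : 0 ≤ (∑ i, P i) * (∑ i, P i * δ i) :=
  mul_nonneg (Finset.sum_nonneg fun i _ => h.Ppos i)
    (Finset.sum_nonneg fun i _ => mul_nonneg (h.Ppos i) (h.pos i).le)

/-- expected number of flat edges -/
theorem flat_le (h : Noise S P δ c ν f) (hS : 0 ≤ S) {r m0 : ℝ} (hr : 0 < r) (hm0 : 0 < m0)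
    (k M : ℕ) (hM : k + 1 ≤ M ∨ n - 1 - k ≤ M) :
    ∫⁻ x, (Fl x k : ℝ≥0∞) ∂(Measure.pi (law ν f)) ≤ ENNReal.ofReal
      (M * (2 * S / r + 2) + (4 * r * m0 + 48 * ((∑ i, P i) * (∑ i, P i * δ i)) / m0)) := by
  classical
  have := law_prob h.one
  have hH := h.Q_nonneg
  have h1 : ∀ᵐ x ∂(Measure.pi (law ν f)), (Fl x k : ℝ≥0∞) ≤
      ENNReal.ofReal (M * (2 * S / r + 2)) +
      ∑ i, ∑ j ∈ Finset.univ.erase i, (if Sh r k x i j then 1 else 0) := by
    filter_upwards [ae_bdd h] with x hx
    exact flat_count hx hS k M hr hM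
  refine (lintegral_mono_ae h1).trans ?_
  have hms : ∀ i j, Measurable fun x : Fin n → ℝ × ℝ => (if Sh r k x i j then (1 : ℝ≥0∞) else 0) :=
    fun i j => Measurable.ite (measurableSet_Sh r k i j) measurable_const measurable_const
  rw [lintegral_add_left measurable_const, lintegral_const, measure_univ, mul_one,
    lintegral_finsetSum _ fun i _ => Finset.measurable_sum _ fun j _ => hms i j]
  rw [ENNReal.ofReal_add (by positivity) (by positivity)]
  gcongr
  refine le_trans (le_of_eq ?_) (short_le h hr hm0 k)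
  refine Finset.sum_congr rfl fun i _ => ?_
  rw [lintegral_finsetSum _ fun j _ => hms i j]
  refine Finset.sum_congr rfl fun j _ => ?_
  rw [← lintegral_indicator_one (measurableSet_Sh r k i j)]
  refine lintegral_congr fun x => ?_
  simp [Set.indicator_apply]

/-- from counts in `ℝ≥0∞` to real expectations -/
theorem integral_of_count {Ω : Type*} [MeasurableSpace Ω] {μ : Measure Ω} [IsProbabilityMeasure μ]
    {G H : Ω → ℕ} (hae : G =ᵐ[μ] H) (hH : Measurable H) {B : ℝ} (hB : 0 ≤ B) {K : ℕ}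
    (hK : ∀ x, H x ≤ K) (hle : ∫⁻ x, (H x : ℝ≥0∞) ∂μ ≤ ENNReal.ofReal B) :
    Integrable (fun x => (G x : ℝ)) μ ∧ ∫ x, (G x : ℝ) ∂μ ≤ B := by
  have hae' : (fun x => (G x : ℝ)) =ᵐ[μ] fun x => (H x : ℝ) := by
    filter_upwards [hae] with x hx
    rw [hx]
  have hm : Measurable fun x => (H x : ℝ) := measurable_from_top.comp hH
  have hint : Integrable (fun x => (H x : ℝ)) μ := by
    refine Integrable.mono' (g := fun _ => (K : ℝ)) (integrable_const _)
      hm.aestronglyMeasurable ?_
    refine Filter.Eventually.of_forall fun x => ?_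
    rw [Real.norm_of_nonneg (Nat.cast_nonneg _)]
    exact_mod_cast hK x
  refine ⟨hint.congr hae'.symm, ?_⟩
  rw [integral_congr_ae hae', integral_eq_lintegral_of_nonneg_ae
    (Filter.Eventually.of_forall fun x => Nat.cast_nonneg _) hm.aestronglyMeasurable]
  refine ENNReal.toReal_le_of_le_ofReal hB ?_
  simpa only [ENNReal.ofReal_natCast] using hle

end Pool.Agent.SMK
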