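import Pool.Agent.SMK.Sum

/-!
# The expected number of short flat edges, summation
-/

namespace Pool.Agent.SMK

open MeasureTheory Pool.Agent.KL
open scoped ENNReal

variable {n : ℕ} {S : ℝ} {P δ : Fin n → ℝ} {c : Fin n → ℝ × ℝ} {ν : Fin n → Measure ℝ}
  [∀ i, SFinite (ν i)] {f : Fin n → ℝ × ℝ → ℝ≥0∞}

/-- total density -/
noncomputable def tot (ν : Fin n → Measure ℝ) (f : Fin n → ℝ × ℝ → ℝ≥0∞) (X Y : ℝ) : ℝ≥0∞ := ∑ l, dn (ν l) (f l) X Y

theorem measurable_tot (hf : ∀ i, Measurable (f i)) :
    Measurable fun z : ℝ × ℝ => tot ν f z.1 z.2 := by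
  unfold tot
  exact Finset.measurable_sum _ fun l _ => measurable_dn (hf l)

open Classical in
/-- where the total density is small -/
noncomputable def T1 (ν : Fin n → Measure ℝ) (f : Fin n → ℝ × ℝ → ℝ≥0∞) (r m0 : ℝ) (k : ℕ) (i j : Fin n) (X Y : ℝ) :
    ℝ≥0∞ :=
  if |X| ≤ 1 ∧ tot ν f X Y ≤ ENNReal.ofReal m0 then ENNReal.ofReal r *
    ((dn (ν i) (f i) X Y * dn (ν j) (f j) X Y) * Qp (law ν f) ((Finset.univ.erase i).erase j) k X Y) else 0

open Classical in
/-- where the total density is large -/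
noncomputable def T2 (ν : Fin n → Measure ℝ) (f : Fin n → ℝ × ℝ → ℝ≥0∞) (D m0 : ℝ) (k : ℕ) (i j : Fin n) (X Y : ℝ) :
    ℝ≥0∞ :=
  if |X| ≤ 1 then ENNReal.ofReal (D / m0) * ((dn (ν i) (f i) X Y * dn (ν j) (f j) X Y) *
    (tot ν f X Y * Qp (law ν f) ((Finset.univ.erase i).erase j) k X Y)) else 0

theorem measurable_T1 (h : Noise S P δ c ν f) (r m0 : ℝ) (k : ℕ) (i j : Fin n) :
    Measurable fun z : ℝ × ℝ => T1 ν f r m0 k i j z.1 z.2 := by
  have := law_prob h.one
  unfold T1
  refine Measurable.ite ?_ ?_ measurable_const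
  · have m1 : Measurable fun z : ℝ × ℝ => |z.1| := measurable_fst.abs
    exact (measurableSet_le m1 measurable_const).inter
      (measurableSet_le (measurable_tot h.meas) measurable_const)
  · exact Measurable.const_mul (((measurable_dn (h.meas i)).mul (measurable_dn (h.meas j))).mul
      (measurable_Qp (law ν f) _ k)) _

theorem measurable_T2 (h : Noise S P δ c ν f) (D m0 : ℝ) (k : ℕ) (i j : Fin n) :
    Measurable fun z : ℝ × ℝ => T2 ν f D m0 k i j z.1 z.2 := by
  have := law_prob h.one
  unfold T2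
  have m1 : Measurable fun z : ℝ × ℝ => |z.1| := measurable_fst.abs
  refine Measurable.ite (measurableSet_le m1 measurable_const) ?_ measurable_const
  exact Measurable.const_mul (((measurable_dn (h.meas i)).mul (measurable_dn (h.meas j))).mul
      ((measurable_tot h.meas).mul (measurable_Qp (law ν f) _ k))) _

theorem Kp_split (h : Noise S P δ c ν f) (r : ℝ) {m0 : ℝ} (hm0 : 0 < m0) (k : ℕ) (i j : Fin n)
    (X Y : ℝ) :
    (if |X| ≤ 1 then Kp ν f r i j X Y *
      Qp (law ν f) ((Finset.univ.erase i).erase j) k X Y else 0) ≤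
    T1 ν f r m0 k i j X Y + T2 ν f (|(c i).1 - (c j).1| + (δ i + δ j)) m0 k i j X Y := by
  unfold T1 T2
  by_cases hX : |X| ≤ 1
  swap
  · simp [hX]
  simp only [hX, if_true, true_and]
  by_cases hm : tot ν f X Y ≤ ENNReal.ofReal m0
  · rw [if_pos hm]
    refine le_trans ?_ le_self_add
    rw [← mul_assoc]
    gcongr
    exact Kp_le_r h r i j X Y
  · rw [if_neg hm, zero_add]
    rw [not_le] at hm
    have hD : (0 : ℝ) ≤ |(c i).1 - (c j).1| + (δ i + δ j) := by
      have := h.pos i
      have := h.pos j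
      positivity
    have h1 : ENNReal.ofReal (|(c i).1 - (c j).1| + (δ i + δ j)) ≤
        ENNReal.ofReal ((|(c i).1 - (c j).1| + (δ i + δ j)) / m0) * tot ν f X Y := by
      calc ENNReal.ofReal (|(c i).1 - (c j).1| + (δ i + δ j))
          = ENNReal.ofReal ((|(c i).1 - (c j).1| + (δ i + δ j)) / m0) * ENNReal.ofReal m0 := by
            rw [← ENNReal.ofReal_mul (by positivity)]
            congr 1
            field_simp
        _ ≤ _ := by gcongr
    calc Kp ν f r i j X Y * Qp (law ν f) ((Finset.univ.erase i).erase j) k X Y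
        ≤ (ENNReal.ofReal (|(c i).1 - (c j).1| + (δ i + δ j)) *
          (dn (ν i) (f i) X Y * dn (ν j) (f j) X Y)) * Qp (law ν f) ((Finset.univ.erase i).erase j) k X Y := by
          gcongr
          exact Kp_le_D h r i j X Y
      _ ≤ ((ENNReal.ofReal ((|(c i).1 - (c j).1| + (δ i + δ j)) / m0) * tot ν f X Y) *
          (dn (ν i) (f i) X Y * dn (ν j) (f j) X Y)) * Qp (law ν f) ((Finset.univ.erase i).erase j) k X Y := by
          gcongr
      _ = _ := by ring

theorem lint3 {g1 g2 : ℝ → ℝ≥0∞} (h1 : Measurable g1) (h2 : Measurable g2) (a b : ℝ≥0∞) :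
    ∫⁻ Y, a * (b * (g1 Y + g2 Y)) = a * (b * ((∫⁻ Y, g1 Y) + ∫⁻ Y, g2 Y)) := by
  have h3 : Measurable fun Y => g1 Y + g2 Y := h1.add h2
  have h4 : Measurable fun Y => b * (g1 Y + g2 Y) := h3.const_mul _
  rw [lintegral_const_mul _ h4, lintegral_const_mul _ h3, lintegral_add_left h1]

/-- small density -/
theorem part_a (h : Noise S P δ c ν f) {r m0 : ℝ} (hr : 0 < r) (k : ℕ) :
    ∑ i, ∑ j ∈ Finset.univ.erase i, ∫⁻ X, ∫⁻ Y, T1 ν f r m0 k i j X Y ≤
      ENNReal.ofReal (4 * r * m0) := by
  classical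
  have := law_prob h.one
  have hmX : ∀ i j, Measurable fun X : ℝ => ∫⁻ Y, T1 ν f r m0 k i j X Y := fun i j =>
    Measurable.lintegral_prod_right' (measurable_T1 h r m0 k i j)
  have hmY : ∀ X i j, Measurable fun Y : ℝ => T1 ν f r m0 k i j X Y := fun X i j =>
    (measurable_T1 h r m0 k i j).comp (by fun_prop : Measurable fun Y : ℝ => (X, Y))
  have hd : ∀ X l, Measurable fun Y : ℝ => dn (ν l) (f l) X Y := fun X l =>
    (measurable_dn (h.meas l)).comp (by fun_prop : Measurable fun Y : ℝ => (X, Y))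
  have hQ : ∀ X J k, Measurable fun Y : ℝ => Qp (law ν f) J k X Y := fun X J k =>
    (measurable_Qp (law ν f) J k).comp (by fun_prop : Measurable fun Y : ℝ => (X, Y))
  have e1 : ∑ i, ∑ j ∈ Finset.univ.erase i, ∫⁻ X, ∫⁻ Y, T1 ν f r m0 k i j X Y =
      ∫⁻ X, ∑ i, ∑ j ∈ Finset.univ.erase i, ∫⁻ Y, T1 ν f r m0 k i j X Y := by
    rw [lintegral_finsetSum _ fun i _ => Finset.measurable_sum _ fun j _ => hmX i j]
    refine Finset.sum_congr rfl fun i _ => ?_
    rw [lintegral_finsetSum _ fun j _ => hmX i j]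
  have e2 : ∀ X, ∑ i, ∑ j ∈ Finset.univ.erase i, ∫⁻ Y, T1 ν f r m0 k i j X Y =
      ∫⁻ Y, ∑ i, ∑ j ∈ Finset.univ.erase i, T1 ν f r m0 k i j X Y := by
    intro X
    rw [lintegral_finsetSum _ fun i _ => Finset.measurable_sum _ fun j _ => hmY X i j]
    refine Finset.sum_congr rfl fun i _ => ?_
    rw [lintegral_finsetSum _ fun j _ => hmY X i j]
  have e3 : ∀ X, ∑ i, ∑ j ∈ Finset.univ.erase i, ∫⁻ Y, T1 ν f r m0 k i j X Y ≤
      (Set.Icc (-1 : ℝ) 1).indicator (fun _ => ENNReal.ofReal r * (ENNReal.ofReal m0 * 2)) X := by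
    intro X
    rw [e2 X]
    by_cases hX : |X| ≤ 1
    swap
    · simp [T1, hX]
    have hXm : X ∈ Set.Icc (-1 : ℝ) 1 := abs_le.1 hX
    rw [Set.indicator_of_mem hXm]
    have hpt : ∀ Y, ∑ i, ∑ j ∈ Finset.univ.erase i, T1 ν f r m0 k i j X Y ≤
        ENNReal.ofReal r * (ENNReal.ofReal m0 * ((∑ i, dn (ν i) (f i) X Y *
          Qp (law ν f) (Finset.univ.erase i) k X Y) + (∑ i, dn (ν i) (f i) X Y *
          Qp (law ν f) (Finset.univ.erase i) (k + 1) X Y))) := by
      intro Y
      by_cases hm : tot ν f X Y ≤ ENNReal.ofReal m0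
      swap
      · simp [T1, hm]
      simp only [T1, hX, hm, and_self, if_true]
      rw [← Finset.sum_add_distrib, Finset.mul_sum, Finset.mul_sum]
      refine Finset.sum_le_sum fun i _ => ?_
      rw [← Finset.mul_sum]
      gcongr
      calc ∑ j ∈ Finset.univ.erase i, dn (ν i) (f i) X Y * dn (ν j) (f j) X Y *
            Qp (law ν f) ((Finset.univ.erase i).erase j) k X Y
          ≤ ∑ j, dn (ν j) (f j) X Y * (dn (ν i) (f i) X Y * Qp (law ν f) (Finset.univ.erase i) k X Y +
            dn (ν i) (f i) X Y * Qp (law ν f) (Finset.univ.erase i) (k + 1) X Y) := by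
            refine (Finset.sum_le_sum_of_subset (Finset.erase_subset _ _)).trans ?_
            refine Finset.sum_le_sum fun j _ => ?_
            rw [mul_comm (dn (ν i) (f i) X Y) (dn (ν j) (f j) X Y), mul_assoc, ← mul_add]
            gcongr
            exact Qp_erase_le (law ν f) _ j k X Y
        _ = tot ν f X Y * (dn (ν i) (f i) X Y * Qp (law ν f) (Finset.univ.erase i) k X Y +
            dn (ν i) (f i) X Y * Qp (law ν f) (Finset.univ.erase i) (k + 1) X Y) := by
            rw [← Finset.sum_mul]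
            rfl
        _ ≤ _ := by gcongr
    refine (lintegral_mono hpt).trans ?_
    have hms : ∀ k, Measurable fun Y => ∑ i, dn (ν i) (f i) X Y *
        Qp (law ν f) (Finset.univ.erase i) k X Y := fun k =>
      Finset.measurable_sum _ fun i _ => (hd X i).mul (hQ X _ k)
    rw [lint3 (hms k) (hms (k + 1))]
    have hr1 : ∀ k, ∫⁻ Y, ∑ i, dn (ν i) (f i) X Y * Qp (law ν f) (Finset.univ.erase i) k X Y ≤ 1 := by
      intro k
      have e4 : ∫⁻ Y, ∑ i, dn (ν i) (f i) X Y * Qp (law ν f) (Finset.univ.erase i) k X Y =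
          ∑ i, ∫⁻ Y, dn (ν i) (f i) X Y * Qp (law ν f) (Finset.univ.erase i) k X Y :=
        lintegral_finsetSum _ fun i _ => (hd X i).mul (hQ X _ k)
      rw [e4]
      exact rank_le h.meas h.one X Finset.univ k
    rw [← one_add_one_eq_two]
    gcongr
    · exact hr1 k
    · exact hr1 (k + 1)
  rw [e1]
  refine (lintegral_mono e3).trans ?_
  rw [lintegral_indicator measurableSet_Icc, lintegral_const,
    Measure.restrict_apply MeasurableSet.univ, Set.univ_inter, Real.volume_Icc]
  have h2 : (2 : ℝ≥0∞) = ENNReal.ofReal 2 := by norm_num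
  rw [h2, ← ENNReal.ofReal_mul' (by norm_num), ← ENNReal.ofReal_mul hr.le,
    ← ENNReal.ofReal_mul' (by norm_num)]
  refine ENNReal.ofReal_le_ofReal (le_of_eq ?_)
  ring

/-- large density, one pair -/
theorem part_b (h : Noise S P δ c ν f) {m0 : ℝ} (hm0 : 0 < m0) (k : ℕ) {i j : Fin n}
    (hij : i ≠ j) :
    ∫⁻ X, ∫⁻ Y, T2 ν f (|(c i).1 - (c j).1| + (δ i + δ j)) m0 k i j X Y ≤
      ENNReal.ofReal (24 * (P i * P j * (δ i + δ j)) / m0) := by
  classical
  have := law_prob h.one
  have hi := h.pos i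
  have hj := h.pos j
  have hPi := h.Ppos i
  have hPj := h.Ppos j
  set D := |(c i).1 - (c j).1| + (δ i + δ j) with hD
  have hD0 : 0 ≤ D := by positivity
  set Θ : Set ℝ := {X : ℝ | |X| ≤ 1 ∧ |((c i).2 - (c j).2) + ((c i).1 - (c j).1) * X| ≤
    2 * (δ i + δ j)} with hΘ
  have hΘm : MeasurableSet Θ := by
    have m1 : Measurable fun X : ℝ => |X| := by fun_prop
    have m2 : Measurable fun X : ℝ => |((c i).2 - (c j).2) + ((c i).1 - (c j).1) * X| := by
      fun_prop
    exact (measurableSet_le m1 measurable_const).inter (measurableSet_le m2 measurable_const)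
  set B := ENNReal.ofReal (P i) * ENNReal.ofReal (P j) with hB
  have e1 : ∀ X, ∫⁻ Y, T2 ν f D m0 k i j X Y ≤
      Θ.indicator (fun _ => ENNReal.ofReal (D / m0) * (B * 4)) X := by
    intro X
    by_cases hX : |X| ≤ 1
    swap
    · simp [T2, hX]
    simp only [T2, hX, if_true]
    by_cases hXΘ : X ∈ Θ
    · rw [Set.indicator_of_mem hXΘ]
      have hmt : Measurable fun Y : ℝ => tot ν f X Y *
          Qp (law ν f) ((Finset.univ.erase i).erase j) k X Y :=
        ((measurable_tot h.meas).comp (by fun_prop : Measurable fun Y : ℝ => (X, Y))).mul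
          ((measurable_Qp (law ν f) _ k).comp (by fun_prop : Measurable fun Y : ℝ => (X, Y)))
      calc ∫⁻ Y, ENNReal.ofReal (D / m0) * ((dn (ν i) (f i) X Y * dn (ν j) (f j) X Y) *
            (tot ν f X Y * Qp (law ν f) ((Finset.univ.erase i).erase j) k X Y))
          ≤ ∫⁻ Y, ENNReal.ofReal (D / m0) * (B *
            (tot ν f X Y * Qp (law ν f) ((Finset.univ.erase i).erase j) k X Y)) := by
            refine lintegral_mono fun Y => ?_
            rw [hB]
            gcongr
            · exact h.dn_le i X Y hX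
            · exact h.dn_le j X Y hX
        _ = ENNReal.ofReal (D / m0) * (B *
            ∫⁻ Y, tot ν f X Y * Qp (law ν f) ((Finset.univ.erase i).erase j) k X Y) := by
            rw [lintegral_const_mul _ (hmt.const_mul _), lintegral_const_mul _ hmt]
        _ ≤ _ := by
            gcongr
            refine (four h.meas h.one X _ k).trans ?_
            have hc : (Finset.univ \ (Finset.univ.erase i).erase j).card ≤ 2 := by
              have : Finset.univ \ (Finset.univ.erase i).erase j ⊆ {i, j} := by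
                intro l hl
                rw [Finset.mem_sdiff, Finset.mem_erase, Finset.mem_erase] at hl
                rw [Finset.mem_insert, Finset.mem_singleton]
                by_contra hc
                rw [not_or] at hc
                exact hl.2 ⟨hc.2, hc.1, Finset.mem_univ _⟩
              exact (Finset.card_le_card this).trans Finset.card_le_two
            calc (2 : ℝ≥0∞) + ((Finset.univ \ (Finset.univ.erase i).erase j).card : ℝ≥0∞)
                ≤ 2 + ((2 : ℕ) : ℝ≥0∞) := by gcongr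
              _ = 4 := by norm_num
    · rw [Set.indicator_of_notMem hXΘ]
      have hz : ∀ Y, dn (ν i) (f i) X Y * dn (ν j) (f j) X Y = 0 := by
        intro Y
        by_contra hne
        rw [mul_eq_zero, not_or] at hne
        have h1 : |ev (c i) X - Y| ≤ 2 * δ i := by
          by_contra hc
          exact hne.1 (h.dn_zero i hX (not_le.1 hc))
        have h2 : |ev (c j) X - Y| ≤ 2 * δ j := by
          by_contra hc
          exact hne.2 (h.dn_zero j hX (not_le.1 hc))
        refine hXΘ ⟨hX, ?_⟩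
        have h3 : ((c i).2 - (c j).2) + ((c i).1 - (c j).1) * X =
            (ev (c i) X - Y) - (ev (c j) X - Y) := by
          unfold ev; ring
        rw [h3]
        refine (abs_sub _ _).trans ?_
        linarith
      simp [hz]
  refine (lintegral_mono e1).trans ?_
  rw [lintegral_indicator hΘm, lintegral_const, Measure.restrict_apply MeasurableSet.univ,
    Set.univ_inter]
  have h4 : (4 : ℝ≥0∞) = ENNReal.ofReal 4 := by norm_num
  have hDm : ENNReal.ofReal (D / m0) = ENNReal.ofReal (1 / m0) * ENNReal.ofReal D := by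
    rw [← ENNReal.ofReal_mul (by positivity)]
    congr 1
    ring
  calc ENNReal.ofReal (D / m0) * (B * 4) * volume Θ
      = ENNReal.ofReal (1 / m0) * (B * 4) * (volume Θ * ENNReal.ofReal D) := by
        rw [hDm]; ring
    _ ≤ ENNReal.ofReal (1 / m0) * (B * 4) * ENNReal.ofReal (6 * (δ i + δ j)) := by
        gcongr
        exact theta ((c i).1 - (c j).1) ((c i).2 - (c j).2) (by positivity)
    _ = ENNReal.ofReal (24 * (P i * P j * (δ i + δ j)) / m0) := by
        rw [h4, hB, ← ENNReal.ofReal_mul (by positivity), ← ENNReal.ofReal_mul (by positivity),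
          ← ENNReal.ofReal_mul (by positivity), ← ENNReal.ofReal_mul (by positivity)]
        congr 1
        field_simp
        ring

/-- The expected number of short flat edges. -/
theorem short_le (h : Noise S P δ c ν f) {r m0 : ℝ} (hr : 0 < r) (hm0 : 0 < m0) (k : ℕ) :
    ∑ i, ∑ j ∈ Finset.univ.erase i, Measure.pi (law ν f) {x | Sh r k x i j} ≤
      ENNReal.ofReal (4 * r * m0 + 48 * ((∑ i, P i) * (∑ i, P i * δ i)) / m0) := by
  classical
  have hsum : ∑ i, ∑ j ∈ Finset.univ.erase i,
      ∫⁻ X, ∫⁻ Y, T2 ν f (|(c i).1 - (c j).1| + (δ i + δ j)) m0 k i j X Y ≤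
      ENNReal.ofReal (48 * ((∑ i, P i) * (∑ i, P i * δ i)) / m0) := by
    calc ∑ i, ∑ j ∈ Finset.univ.erase i,
        ∫⁻ X, ∫⁻ Y, T2 ν f (|(c i).1 - (c j).1| + (δ i + δ j)) m0 k i j X Y
        ≤ ∑ i : Fin n, ∑ j ∈ Finset.univ.erase i,
          ENNReal.ofReal (24 * (P i * P j * (δ i + δ j)) / m0) :=
          Finset.sum_le_sum fun i _ => Finset.sum_le_sum fun j hj =>
            part_b h hm0 k (Ne.symm (Finset.ne_of_mem_erase hj))
      _ ≤ ∑ i : Fin n, ∑ j, ENNReal.ofReal (24 * (P i * P j * (δ i + δ j)) / m0) :=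
          Finset.sum_le_sum fun i _ =>
            Finset.sum_le_sum_of_subset (Finset.erase_subset _ _)
      _ = ENNReal.ofReal (48 * ((∑ i, P i) * (∑ i, P i * δ i)) / m0) := by
          have hnn : ∀ i j, 0 ≤ 24 * (P i * P j * (δ i + δ j)) / m0 := by
            intro i j
            have := h.pos i
            have := h.pos j
            have := h.Ppos i
            have := h.Ppos j
            positivity
          have e5 : ∀ i : Fin n, ∑ j, ENNReal.ofReal (24 * (P i * P j * (δ i + δ j)) / m0) =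
              ENNReal.ofReal (∑ j, 24 * (P i * P j * (δ i + δ j)) / m0) := fun i =>
            (ENNReal.ofReal_sum_of_nonneg fun j _ => hnn i j).symm
          simp_rw [e5]
          rw [← ENNReal.ofReal_sum_of_nonneg fun i _ => Finset.sum_nonneg fun j _ => hnn i j]
          congr 1
          simp_rw [← Finset.sum_div, ← Finset.mul_sum]
          congr 1
          have e6 : ∑ i, ∑ j, P i * P j * (δ i + δ j) = (∑ i, P i * δ i) * (∑ i, P i) +
              (∑ i, P i) * (∑ i, P i * δ i) := by
            rw [Finset.sum_mul_sum, Finset.sum_mul_sum, ← Finset.sum_add_distrib]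
            refine Finset.sum_congr rfl fun i _ => ?_
            rw [← Finset.sum_add_distrib]
            refine Finset.sum_congr rfl fun j _ => ?_
            ring
          rw [e6]
          ring
  have hmX : ∀ i j, Measurable fun X : ℝ => ∫⁻ Y, T1 ν f r m0 k i j X Y := fun i j =>
    Measurable.lintegral_prod_right' (measurable_T1 h r m0 k i j)
  have hmY : ∀ X i j, Measurable fun Y : ℝ => T1 ν f r m0 k i j X Y := fun X i j =>
    (measurable_T1 h r m0 k i j).comp (by fun_prop : Measurable fun Y : ℝ => (X, Y))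
  calc ∑ i, ∑ j ∈ Finset.univ.erase i, Measure.pi (law ν f) {x | Sh r k x i j}
      ≤ ∑ i, ∑ j ∈ Finset.univ.erase i, ((∫⁻ X, ∫⁻ Y, T1 ν f r m0 k i j X Y) +
        ∫⁻ X, ∫⁻ Y, T2 ν f (|(c i).1 - (c j).1| + (δ i + δ j)) m0 k i j X Y) := by
        refine Finset.sum_le_sum fun i _ => Finset.sum_le_sum fun j hj => ?_
        rw [pair_eq h.meas h.one r k (Ne.symm (Finset.ne_of_mem_erase hj)),
          ← lintegral_add_left (hmX i j)]
        refine lintegral_mono fun X => ?_
        rw [← lintegral_add_left (hmY X i j)]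
        exact lintegral_mono fun Y => Kp_split h r hm0 k i j X Y
    _ = (∑ i, ∑ j ∈ Finset.univ.erase i, ∫⁻ X, ∫⁻ Y, T1 ν f r m0 k i j X Y) +
        ∑ i, ∑ j ∈ Finset.univ.erase i,
          ∫⁻ X, ∫⁻ Y, T2 ν f (|(c i).1 - (c j).1| + (δ i + δ j)) m0 k i j X Y := by
        rw [← Finset.sum_add_distrib]
        refine Finset.sum_congr rfl fun i _ => ?_
        rw [Finset.sum_add_distrib]
    _ ≤ ENNReal.ofReal (4 * r * m0) +
        ENNReal.ofReal (48 * ((∑ i, P i) * (∑ i, P i * δ i)) / m0) :=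
        add_le_add (part_a h hr k) hsum
    _ = _ := by
        have h1 : 0 ≤ ∑ i, P i := Finset.sum_nonneg fun i _ => h.Ppos i
        have h2 : 0 ≤ ∑ i, P i * δ i := Finset.sum_nonneg fun i _ =>
          mul_nonneg (h.Ppos i) (h.pos i).le
        rw [ENNReal.ofReal_add (by positivity) (by positivity)]

end Pool.Agent.SMK
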