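import Pool.Agent.SMK.Rank

/-!
# The probability that a pair is a short flat edge
-/

namespace Pool.Agent.SMK

open MeasureTheory Pool.Agent.KL
open scoped ENNReal

variable {n : ℕ}

/-- weight of a pair of slopes -/
noncomputable def wt (r a a' : ℝ) : ℝ≥0∞ := if a < a' ∧ a' - a < r then ENNReal.ofReal (a' - a) else 0

theorem measurable_wt (r : ℝ) : Measurable fun z : ℝ × ℝ => wt r z.1 z.2 := by
  unfold wt
  refine Measurable.ite ?_ (by fun_prop) measurable_const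
  exact (measurableSet_lt measurable_fst measurable_snd).inter
    (measurableSet_lt (measurable_snd.sub measurable_fst) measurable_const)

/-- change of variables -/
theorem cv {ν ν' : Measure ℝ} [SFinite ν] [SFinite ν'] {r : ℝ} {F : ℝ × ℝ → ℝ × ℝ → ℝ≥0∞}
    (hF : Measurable (Function.uncurry F))
    (h0 : ∀ u v : ℝ × ℝ, ¬ (u.1 < v.1 ∧ v.1 - u.1 < r) → F u v = 0) :
    ∫⁻ u : ℝ × ℝ, ∫⁻ v : ℝ × ℝ, F u v ∂(ν'.prod volume) ∂(ν.prod volume) =
      ∫⁻ X, ∫⁻ Y, ∫⁻ a, ∫⁻ a', wt r a a' * F (a, Y - a * X) (a', Y - a' * X) ∂ν' ∂ν := by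
  have hF' : Measurable fun z : (ℝ × ℝ) × (ℝ × ℝ) => F z.1 z.2 := hF
  -- split the planar integrals
  have h1 : ∀ u : ℝ × ℝ, ∫⁻ v : ℝ × ℝ, F u v ∂(ν'.prod volume) =
      ∫⁻ a', ∫⁻ b', F u (a', b') ∂volume ∂ν' := by
    intro u
    rw [lintegral_prod]
    exact (hF'.comp (by fun_prop : Measurable fun v : ℝ × ℝ => (u, v))).aemeasurable
  have hm3 : Measurable fun z : (ℝ × ℝ) × ℝ => ∫⁻ b', F z.1 (z.2, b') := by
    exact Measurable.lintegral_prod_right' (f := fun z : ((ℝ × ℝ) × ℝ) × ℝ =>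
      F z.1.1 (z.1.2, z.2)) (hF'.comp (by fun_prop :
        Measurable fun z : ((ℝ × ℝ) × ℝ) × ℝ => (z.1.1, (z.1.2, z.2))))
  have h2 : ∫⁻ u : ℝ × ℝ, ∫⁻ v : ℝ × ℝ, F u v ∂(ν'.prod volume) ∂(ν.prod volume) =
      ∫⁻ a, ∫⁻ b, ∫⁻ a', ∫⁻ b', F (a, b) (a', b') ∂volume ∂ν' ∂volume ∂ν := by
    simp_rw [h1]
    rw [lintegral_prod]
    exact (Measurable.lintegral_prod_right' hm3).aemeasurable
  have h3 : ∀ a : ℝ, ∫⁻ b, ∫⁻ a', ∫⁻ b', F (a, b) (a', b') ∂volume ∂ν' =
      ∫⁻ a', ∫⁻ b, ∫⁻ b', F (a, b) (a', b') ∂volume ∂volume ∂ν' := by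
    intro a
    refine lintegral_lintegral_swap ?_
    exact (hm3.comp (by fun_prop : Measurable fun z : ℝ × ℝ => ((a, z.1), z.2))).aemeasurable
  have h4 : ∀ a a' : ℝ, ∫⁻ b, ∫⁻ b', F (a, b) (a', b') =
      ∫⁻ X, ∫⁻ Y, wt r a a' * F (a, Y - a * X) (a', Y - a' * X) := by
    intro a a'
    unfold wt
    by_cases h : a < a' ∧ a' - a < r
    · simp only [if_pos h]
      rw [subst2 (G := fun b b' => F (a, b) (a', b')) (hF'.comp (by fun_prop :
        Measurable fun z : ℝ × ℝ => ((a, z.1), (a', z.2)))) h.1]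
      have hm : Measurable fun z : ℝ × ℝ => F (a, z.2 - a * z.1) (a', z.2 - a' * z.1) :=
        hF'.comp (by fun_prop : Measurable fun z : ℝ × ℝ =>
          ((a, z.2 - a * z.1), (a', z.2 - a' * z.1)))
      rw [← lintegral_const_mul _ (Measurable.lintegral_prod_right' hm)]
      refine lintegral_congr fun X => ?_
      have hmX : Measurable fun Y : ℝ => F (a, Y - a * X) (a', Y - a' * X) :=
        hm.comp (by fun_prop : Measurable fun Y : ℝ => (X, Y))
      exact (lintegral_const_mul _ hmX).symm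
    · simp only [if_neg h, zero_mul, lintegral_zero]
      have h5 : ∀ b b' : ℝ, F (a, b) (a', b') = 0 := fun b b' => h0 _ _ h
      simp [h5]
  rw [h2]
  simp_rw [h3, h4]
  -- four-fold Tonelli
  have hH : Measurable fun z : (ℝ × ℝ) × (ℝ × ℝ) => wt r z.1.1 z.1.2 *
      F (z.1.1, z.2.2 - z.1.1 * z.2.1) (z.1.2, z.2.2 - z.1.2 * z.2.1) := by
    exact Measurable.mul ((measurable_wt r).comp measurable_fst) (hF'.comp
      (by fun_prop : Measurable fun z : (ℝ × ℝ) × (ℝ × ℝ) =>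
        ((z.1.1, z.2.2 - z.1.1 * z.2.1), (z.1.2, z.2.2 - z.1.2 * z.2.1))))
  have hL : ∫⁻ a, ∫⁻ a', ∫⁻ X, ∫⁻ Y, wt r a a' * F (a, Y - a * X) (a', Y - a' * X)
      ∂volume ∂volume ∂ν' ∂ν =
      ∫⁻ z : ℝ × ℝ, ∫⁻ w : ℝ × ℝ, wt r z.1 z.2 *
      F (z.1, w.2 - z.1 * w.1) (z.2, w.2 - z.2 * w.1) ∂(volume.prod volume) ∂(ν.prod ν') := by
    rw [lintegral_prod _
      (Measurable.lintegral_prod_right' hH).aemeasurable]
    refine lintegral_congr fun a => lintegral_congr fun a' => ?_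
    rw [lintegral_prod]
    exact (hH.comp (by fun_prop : Measurable fun w : ℝ × ℝ => ((a, a'), w))).aemeasurable
  have hR : ∫⁻ X, ∫⁻ Y, ∫⁻ a, ∫⁻ a', wt r a a' * F (a, Y - a * X) (a', Y - a' * X) ∂ν' ∂ν =
      ∫⁻ w : ℝ × ℝ, ∫⁻ z : ℝ × ℝ, wt r z.1 z.2 *
      F (z.1, w.2 - z.1 * w.1) (z.2, w.2 - z.2 * w.1) ∂(ν.prod ν') ∂(volume.prod volume) := by
    have hH' : Measurable fun z : (ℝ × ℝ) × (ℝ × ℝ) => wt r z.2.1 z.2.2 *
      F (z.2.1, z.1.2 - z.2.1 * z.1.1) (z.2.2, z.1.2 - z.2.2 * z.1.1) :=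
      hH.comp measurable_swap
    rw [lintegral_prod _
      (Measurable.lintegral_prod_right' hH').aemeasurable]
    refine lintegral_congr fun X => lintegral_congr fun Y => ?_
    rw [lintegral_prod]
    exact (hH'.comp (by fun_prop : Measurable fun w : ℝ × ℝ => ((X, Y), w))).aemeasurable
  rw [hL, hR, lintegral_lintegral_swap hH.aemeasurable]

variable {ν : Fin n → Measure ℝ} [∀ i, SFinite (ν i)] {f : Fin n → ℝ × ℝ → ℝ≥0∞}

/-- the pair `(i, j)` is a short flat edge of level `k` (weak form) -/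
def Sh (r : ℝ) (k : ℕ) (x : Fin n → ℝ × ℝ) (i j : Fin n) : Prop :=
  (x i).1 < (x j).1 ∧ (x j).1 - (x i).1 < r ∧ |cr (x i) (x j)| ≤ 1 ∧
    cnt ((Finset.univ.erase i).erase j) (cr (x i) (x j)) (ev (x i) (cr (x i) (x j))) x = k

theorem measurable_cr : Measurable fun z : (ℝ × ℝ) × (ℝ × ℝ) => cr z.1 z.2 := by
  unfold cr
  fun_prop

theorem measurable_evcr : Measurable fun z : (ℝ × ℝ) × (ℝ × ℝ) => ev z.1 (cr z.1 z.2) := by
  unfold ev
  have := measurable_cr
  fun_prop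

/-- the kernel of a pair -/
noncomputable def Kp (ν : Fin n → Measure ℝ) (f : Fin n → ℝ × ℝ → ℝ≥0∞) (r : ℝ) (i j : Fin n)
    (X Y : ℝ) : ℝ≥0∞ :=
  ∫⁻ a, ∫⁻ a', wt r a a' * (f i (a, Y - a * X) * f j (a', Y - a' * X)) ∂(ν j) ∂(ν i)

theorem measurableSet_base (r : ℝ) : MeasurableSet {z : (ℝ × ℝ) × (ℝ × ℝ) |
    z.1.1 < z.2.1 ∧ z.2.1 - z.1.1 < r ∧ |cr z.1 z.2| ≤ 1} := by
  have m1 : Measurable fun z : (ℝ × ℝ) × (ℝ × ℝ) => z.1.1 := by fun_prop
  have m2 : Measurable fun z : (ℝ × ℝ) × (ℝ × ℝ) => z.2.1 := by fun_prop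
  have m3 : Measurable fun z : (ℝ × ℝ) × (ℝ × ℝ) => |cr z.1 z.2| := by
    have := measurable_cr
    exact this.abs
  exact (measurableSet_lt m1 m2).inter
    ((measurableSet_lt (m2.sub m1) measurable_const).inter (measurableSet_le m3 measurable_const))

theorem cr_param {a a' : ℝ} (h : a < a') (X Y : ℝ) :
    cr (a, Y - a * X) (a', Y - a' * X) = X := by
  unfold cr
  have h1 : a' - a ≠ 0 := by linarith
  rw [div_eq_iff h1]
  ring

open Classical in
theorem pair_eq (hf : ∀ i, Measurable (f i)) (h1 : ∀ i, ∫⁻ u, f i u ∂((ν i).prod volume) = 1) (r : ℝ) (k : ℕ)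
    {i j : Fin n} (hij : i ≠ j) :
    Measure.pi (law ν f) {x | Sh r k x i j} = ∫⁻ X, ∫⁻ Y, (if |X| ≤ 1 then
      Kp ν f r i j X Y * Qp (law ν f) ((Finset.univ.erase i).erase j) k X Y else 0) := by
  have := law_prob h1
  set J := (Finset.univ.erase i).erase j with hJ
  have hiJ : i ∉ J := by simp [hJ]
  have hjJ : j ∉ J := by simp [hJ]
  set G : (ℝ × ℝ) → (ℝ × ℝ) → (Fin n → ℝ × ℝ) → ℝ≥0∞ := fun u v x =>
    if (u.1 < v.1 ∧ v.1 - u.1 < r ∧ |cr u v| ≤ 1) ∧ cnt J (cr u v) (ev u (cr u v)) x = k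
      then 1 else 0 with hG
  have hGm : Measurable fun z : ((ℝ × ℝ) × (ℝ × ℝ)) × (Fin n → ℝ × ℝ) => G z.1.1 z.1.2 z.2 := by
    refine Measurable.ite (MeasurableSet.inter ?_ ?_) measurable_const measurable_const
    · exact (measurableSet_base r).preimage measurable_fst
    · have h2 : Measurable fun z : ((ℝ × ℝ) × (ℝ × ℝ)) × (Fin n → ℝ × ℝ) =>
          cnt J (cr z.1.1 z.1.2) (ev z.1.1 (cr z.1.1 z.1.2)) z.2 := by
        refine (measurable_cnt J).comp (g := fun z => cnt J z.1.1 z.1.2 z.2)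
          (f := fun z : ((ℝ × ℝ) × (ℝ × ℝ)) × (Fin n → ℝ × ℝ) =>
            ((cr z.1.1 z.1.2, ev z.1.1 (cr z.1.1 z.1.2)), z.2)) ?_
        exact ((measurable_cr.comp measurable_fst).prodMk
          (measurable_evcr.comp measurable_fst)).prodMk measurable_snd
      exact h2 (measurableSet_singleton k)
  have hcnt : ∀ (X Y : ℝ) (x : Fin n → ℝ × ℝ) (l : Fin n) (u : ℝ × ℝ), l ∉ J →
      cnt J X Y (Function.update x l u) = cnt J X Y x := by
    intro X Y x l u hl
    unfold cnt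
    congr 1
    refine Finset.filter_congr fun m hm => ?_
    have hml : m ≠ l := fun h => hl (by rw [← h]; exact hm)
    rw [Function.update_of_ne hml]
  -- step 1: the probability as an integral
  have e1 : Measure.pi (law ν f) {x | Sh r k x i j} =
      ∫⁻ x, G (x i) (x j) x ∂(Measure.pi (law ν f)) := by
    have hms : MeasurableSet {x : Fin n → ℝ × ℝ | Sh r k x i j} := by
      have h2 : {x : Fin n → ℝ × ℝ | Sh r k x i j} =
          (fun x : Fin n → ℝ × ℝ => G (x i) (x j) x) ⁻¹' {1} := by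
        ext x
        simp only [Set.mem_ofPred_eq, Set.mem_preimage, Set.mem_singleton_iff, hG, Sh]
        constructor
        · intro h
          rw [if_pos ⟨⟨h.1, h.2.1, h.2.2.1⟩, h.2.2.2⟩]
        · intro h
          by_contra hc
          rw [if_neg (fun h' => hc ⟨h'.1.1, h'.1.2.1, h'.1.2.2, h'.2⟩)] at h
          exact zero_ne_one h
      rw [h2]
      refine Measurable.comp (g := fun z : ((ℝ × ℝ) × (ℝ × ℝ)) × (Fin n → ℝ × ℝ) =>
        G z.1.1 z.1.2 z.2) (f := fun x : Fin n → ℝ × ℝ => ((x i, x j), x)) hGm (by fun_prop) ?_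
      exact measurableSet_singleton 1
    rw [← lintegral_indicator_one hms]
    refine lintegral_congr fun x => ?_
    simp only [Set.indicator_apply, Set.mem_ofPred_eq, hG, Sh, Pi.one_apply, and_assoc]
    rfl
  have hGm1 : Measurable fun x : Fin n → ℝ × ℝ => G (x i) (x j) x :=
    Measurable.comp (g := fun z : ((ℝ × ℝ) × (ℝ × ℝ)) × (Fin n → ℝ × ℝ) =>
        G z.1.1 z.1.2 z.2) (f := fun x : Fin n → ℝ × ℝ => ((x i, x j), x)) hGm (by fun_prop)
  -- step 2: resample twice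
  have e2 : ∫⁻ x, G (x i) (x j) x ∂(Measure.pi (law ν f)) =
      ∫⁻ x, ∫⁻ u, G u (x j) x ∂(law ν f i) ∂(Measure.pi (law ν f)) := by
    rw [resample _ i hGm1]
    refine lintegral_congr fun x => lintegral_congr fun u => ?_
    simp only [hG, Function.update_self, Function.update_of_ne hij.symm, hcnt _ _ x i u hiJ]
  have hGm2 : Measurable fun x : Fin n → ℝ × ℝ => ∫⁻ u, G u (x j) x ∂(law ν f i) := by
    refine Measurable.lintegral_prod_right' (f := fun z : (Fin n → ℝ × ℝ) × (ℝ × ℝ) =>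
      G z.2 (z.1 j) z.1) ?_
    exact Measurable.comp (g := fun z : ((ℝ × ℝ) × (ℝ × ℝ)) × (Fin n → ℝ × ℝ) =>
        G z.1.1 z.1.2 z.2) (f := fun z : (Fin n → ℝ × ℝ) × (ℝ × ℝ) => ((z.2, z.1 j), z.1)) hGm
        (by fun_prop)
  have e3 : ∫⁻ x, ∫⁻ u, G u (x j) x ∂(law ν f i) ∂(Measure.pi (law ν f)) =
      ∫⁻ x, ∫⁻ v, ∫⁻ u, G u v x ∂(law ν f i) ∂(law ν f j) ∂(Measure.pi (law ν f)) := by
    rw [resample _ j hGm2]
    refine lintegral_congr fun x => lintegral_congr fun v => lintegral_congr fun u => ?_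
    simp only [hG, Function.update_self, hcnt _ _ x j v hjJ]
  -- step 3: integrate out the other lines
  set Φ : (ℝ × ℝ) → (ℝ × ℝ) → ℝ≥0∞ := fun u v =>
    if (u.1 < v.1 ∧ v.1 - u.1 < r ∧ |cr u v| ≤ 1) then Qp (law ν f) J k (cr u v) (ev u (cr u v))
      else 0 with hΦ
  have hΦm : Measurable fun z : (ℝ × ℝ) × (ℝ × ℝ) => Φ z.1 z.2 := by
    refine Measurable.ite (measurableSet_base r) ?_ measurable_const
    exact Measurable.comp (g := fun z : ℝ × ℝ => Qp (law ν f) J k z.1 z.2)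
      (measurable_Qp (law ν f) J k) (measurable_cr.prodMk measurable_evcr)
  have hGΦ : ∀ u v, ∫⁻ x, G u v x ∂(Measure.pi (law ν f)) = Φ u v := by
    intro u v
    simp only [hG, hΦ]
    by_cases h : (u.1 < v.1 ∧ v.1 - u.1 < r ∧ |cr u v| ≤ 1)
    · rw [if_pos h, Qp_eq]
      refine lintegral_congr fun x => ?_
      simp only [h, true_and]
    · rw [if_neg h]
      simp [h]
  have e4 : ∫⁻ x, ∫⁻ v, ∫⁻ u, G u v x ∂(law ν f i) ∂(law ν f j) ∂(Measure.pi (law ν f)) =
      ∫⁻ v, ∫⁻ u, Φ u v ∂(law ν f i) ∂(law ν f j) := by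
    rw [lintegral_lintegral_swap]
    · refine lintegral_congr fun v => ?_
      rw [lintegral_lintegral_swap]
      · refine lintegral_congr fun u => hGΦ u v
      · exact (Measurable.comp (g := fun z : ((ℝ × ℝ) × (ℝ × ℝ)) × (Fin n → ℝ × ℝ) =>
          G z.1.1 z.1.2 z.2) (f := fun z : (Fin n → ℝ × ℝ) × (ℝ × ℝ) => ((z.2, v), z.1)) hGm
          (by fun_prop)).aemeasurable
    · refine (Measurable.lintegral_prod_right' (f := fun z : ((Fin n → ℝ × ℝ) × (ℝ × ℝ)) × (ℝ × ℝ)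
        => G z.2 z.1.2 z.1.1) ?_).aemeasurable
      exact Measurable.comp (g := fun z : ((ℝ × ℝ) × (ℝ × ℝ)) × (Fin n → ℝ × ℝ) =>
          G z.1.1 z.1.2 z.2) (f := fun z : ((Fin n → ℝ × ℝ) × (ℝ × ℝ)) × (ℝ × ℝ) =>
            ((z.2, z.1.2), z.1.1)) hGm (by fun_prop)
  -- step 4: densities
  set F : (ℝ × ℝ) → (ℝ × ℝ) → ℝ≥0∞ := fun u v => f i u * (f j v * Φ u v) with hF
  have hFm : Measurable fun z : (ℝ × ℝ) × (ℝ × ℝ) => F z.1 z.2 :=
    ((hf i).comp measurable_fst).mul (((hf j).comp measurable_snd).mul hΦm)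
  have e5 : ∫⁻ v, ∫⁻ u, Φ u v ∂(law ν f i) ∂(law ν f j) = ∫⁻ u, ∫⁻ v, F u v ∂((ν j).prod volume) ∂((ν i).prod volume) := by
    have h2 : ∀ v, ∫⁻ u, Φ u v ∂(law ν f i) = ∫⁻ u, f i u * Φ u v ∂((ν i).prod volume) := by
      intro v
      exact law_lintegral hf i (hΦm.comp (by fun_prop : Measurable fun u : ℝ × ℝ => (u, v)))
    simp_rw [h2]
    have hm3 : Measurable fun z : (ℝ × ℝ) × (ℝ × ℝ) => f i z.2 * Φ z.2 z.1 :=
      ((hf i).comp measurable_snd).mul (hΦm.comp measurable_swap)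
    rw [law_lintegral hf j (Measurable.lintegral_prod_right' hm3)]
    have h3 : ∀ v, f j v * ∫⁻ u, f i u * Φ u v ∂((ν i).prod volume) =
        ∫⁻ u, F u v ∂((ν i).prod volume) := by
      intro v
      rw [← lintegral_const_mul]
      · refine lintegral_congr fun u => ?_
        simp only [hF]
        ring
      · exact hm3.comp (by fun_prop : Measurable fun u : ℝ × ℝ => (v, u))
    simp_rw [h3]
    exact lintegral_lintegral_swap (hFm.comp measurable_swap).aemeasurable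
  -- step 5: change of variables
  rw [e1, e2, e3, e4, e5, cv (r := r) (F := F) hFm]
  · refine lintegral_congr fun X => lintegral_congr fun Y => ?_
    unfold Kp
    by_cases hX : |X| ≤ 1
    · rw [if_pos hX]
      have hmm : Measurable fun z : ℝ × ℝ => wt r z.1 z.2 *
          (f i (z.1, Y - z.1 * X) * f j (z.2, Y - z.2 * X)) := by
        refine (measurable_wt r).mul (((hf i).comp (by fun_prop)).mul ((hf j).comp (by fun_prop)))
      rw [← lintegral_mul_const _ (Measurable.lintegral_prod_right' hmm)]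
      refine lintegral_congr fun a => ?_
      have hma : Measurable fun a' : ℝ => wt r a a' *
          (f i (a, Y - a * X) * f j (a', Y - a' * X)) :=
        hmm.comp (by fun_prop : Measurable fun a' : ℝ => (a, a'))
      refine Eq.trans ?_ (lintegral_mul_const _ hma)
      refine lintegral_congr fun a' => ?_
      simp only [hF, hΦ]
      by_cases hw : a < a' ∧ a' - a < r
      · have hc := cr_param hw.1 X Y
        rw [hc, if_pos ⟨hw.1, hw.2, hX⟩]
        have hev : ev (a, Y - a * X) X = Y := by unfold ev; ring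
        rw [hev]
        ring
      · unfold wt
        rw [if_neg hw]
        simp
    · rw [if_neg hX]
      have hz : ∀ a a', wt r a a' * F (a, Y - a * X) (a', Y - a' * X) = 0 := by
        intro a a'
        by_cases hw : a < a' ∧ a' - a < r
        · simp only [hF, hΦ]
          rw [cr_param hw.1 X Y, if_neg (fun h => hX h.2.2)]
          simp
        · unfold wt
          rw [if_neg hw, zero_mul]
      simp [hz]
  · intro u v h
    simp only [hF, hΦ]
    rw [if_neg (fun h' => h ⟨h'.1, h'.2.1⟩)]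
    simp

end Pool.Agent.SMK
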