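import Pool.Agent.SMK.Final2

/-!
# Smoothed analysis of the `k`-level: noise in slopes and intercepts
-/

namespace Pool.Agent.SMK

open MeasureTheory Pool.Agent.KL
open scoped ENNReal

variable {n : ℕ} {A R : ℝ} {δ : Fin n → ℝ} {c : Fin n → ℝ × ℝ} {f : Fin n → ℝ × ℝ → ℝ≥0∞}

/-- the planar noise model: independent lines, the `i`-th has density at most `A / δ_i ^ 2`,
supported in the square with centre `c_i` and half side `δ_i` -/
structure PNoise (A R : ℝ) (δ : Fin n → ℝ) (c : Fin n → ℝ × ℝ) (f : Fin n → ℝ × ℝ → ℝ≥0∞) :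
    Prop where
  pos : ∀ i, 0 < δ i
  le : ∀ i, δ i ≤ R
  cle : ∀ i, |(c i).1| ≤ R ∧ |(c i).2| ≤ R
  meas : ∀ i, Measurable (f i)
  bdd : ∀ i u, f i u ≤ ENNReal.ofReal (A / δ i ^ 2)
  supp : ∀ i u, f i u ≠ 0 → |u.1 - (c i).1| ≤ δ i ∧ |u.2 - (c i).2| ≤ δ i
  one : ∀ i, ∫⁻ u, f i u = 1

theorem PNoise.A_ge (h : PNoise A R δ c f) (i : Fin n) : 1 / 4 ≤ A := by
  have hd := h.pos i
  have h1 : (1 : ℝ≥0∞) ≤ ENNReal.ofReal (A / δ i ^ 2) * ENNReal.ofReal (2 * δ i * (2 * δ i)) := by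
    rw [← h.one i]
    have hs : ∀ u : ℝ × ℝ, f i u ≤ (Set.Icc ((c i).1 - δ i) ((c i).1 + δ i) ×ˢ
        Set.Icc ((c i).2 - δ i) ((c i).2 + δ i)).indicator
        (fun _ => ENNReal.ofReal (A / δ i ^ 2)) u := by
      intro u
      by_cases hu : f i u = 0
      · rw [hu]; positivity
      · obtain ⟨h2, h3⟩ := h.supp i u hu
        rw [abs_le] at h2 h3
        rw [Set.indicator_of_mem]
        · exact h.bdd i u
        · rw [Set.mem_prod, Set.mem_Icc, Set.mem_Icc]
          refine ⟨⟨?_, ?_⟩, ?_, ?_⟩ <;> linarith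
    refine (lintegral_mono hs).trans ?_
    rw [lintegral_indicator (measurableSet_Icc.prod measurableSet_Icc), lintegral_const,
      Measure.restrict_apply MeasurableSet.univ, Set.univ_inter, Measure.volume_eq_prod,
      Measure.prod_prod, Real.volume_Icc, Real.volume_Icc, ← ENNReal.ofReal_mul (by linarith)]
    refine le_of_eq ?_
    congr 2
    ring
  rw [← ENNReal.ofReal_one, ← ENNReal.ofReal_mul' (by positivity)] at h1
  by_contra hc
  rw [not_le] at hc
  have h2 : A / δ i ^ 2 * (2 * δ i * (2 * δ i)) = 4 * A := by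
    field_simp
    ring
  rw [h2] at h1
  have h3 : ENNReal.ofReal (4 * A) < ENNReal.ofReal 1 := by
    rw [ENNReal.ofReal_lt_ofReal_iff one_pos]
    linarith
  exact absurd h1 (not_le.2 h3)

theorem PNoise.dn_le (h : PNoise A R δ c f) (i : Fin n) (X Y : ℝ) :
    dn volume (f i) X Y ≤ ENNReal.ofReal (2 * A / δ i) := by
  have hd := h.pos i
  have hA := h.A_ge i
  unfold dn
  have hs : ∀ a : ℝ, f i (a, Y - a * X) ≤ (Set.Icc ((c i).1 - δ i) ((c i).1 + δ i)).indicator
      (fun _ => ENNReal.ofReal (A / δ i ^ 2)) a := by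
    intro a
    by_cases hu : f i (a, Y - a * X) = 0
    · rw [hu]; positivity
    · obtain ⟨h2, -⟩ := h.supp i _ hu
      rw [abs_le] at h2
      rw [Set.indicator_of_mem]
      · exact h.bdd i _
      · rw [Set.mem_Icc]
        constructor <;> linarith [h2.1, h2.2]
  refine (lintegral_mono hs).trans ?_
  rw [lintegral_indicator measurableSet_Icc, lintegral_const,
    Measure.restrict_apply MeasurableSet.univ, Set.univ_inter, Real.volume_Icc,
    ← ENNReal.ofReal_mul (by positivity)]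
  refine le_of_eq ?_
  congr 1
  field_simp
  ring

theorem PNoise.noise (h : PNoise A R δ c f) :
    Noise (2 * R) (fun i => 2 * A / δ i) δ c (fun _ => volume) f where
  pos := h.pos
  Ppos := fun i => by
    have := h.pos i
    have := h.A_ge i
    positivity
  range := fun i u hu => by
    have h1 := (h.supp i u hu).1
    have h2 := (h.cle i).1
    have h3 := h.le i
    have h4 : u.1 = (u.1 - (c i).1) + (c i).1 := by ring
    rw [h4]
    exact (abs_add_le _ _).trans (by linarith)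
  meas := h.meas
  dn_le := fun i X Y _ => h.dn_le i X Y
  supp := h.supp
  one := fun i => h.one i

/-- the laws -/
noncomputable def plaw (f : Fin n → ℝ × ℝ → ℝ≥0∞) : Fin n → Measure (ℝ × ℝ) :=
  law (fun _ => volume) f

theorem PNoise.H_nonneg (h : PNoise A R δ c f) : 0 ≤ ∑ i, 1 / δ i :=
  Finset.sum_nonneg fun i _ => by
    have := h.pos i
    positivity

theorem PNoise.flat_le (h : PNoise A R δ c f) (hR : 0 ≤ R) {r m0 : ℝ} (hr : 0 < r) (hm0 : 0 < m0)
    (k M : ℕ) (hM : k + 1 ≤ M ∨ n - 1 - k ≤ M) :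
    ∫⁻ x, (Fl x k : ℝ≥0∞) ∂(Measure.pi (plaw f)) ≤ ENNReal.ofReal
      (M * (4 * R / r + 2) + (4 * r * m0 + 192 * A ^ 2 * n * (∑ i, 1 / δ i) / m0)) := by
  refine (Pool.Agent.SMK.flat_le h.noise (by linarith) hr hm0 k M hM).trans ?_
  refine ENNReal.ofReal_le_ofReal (le_of_eq ?_)
  have h1 : ∑ i, 2 * A / δ i = 2 * A * ∑ i, 1 / δ i := by
    rw [Finset.mul_sum]
    refine Finset.sum_congr rfl fun i _ => ?_
    ring
  have h2 : ∑ i, 2 * A / δ i * δ i = 2 * A * n := by
    have : ∀ i, 2 * A / δ i * δ i = 2 * A := fun i => div_mul_cancel₀ _ (h.pos i).ne'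
    simp_rw [this]
    simp
    ring
  rw [h1, h2]
  ring

/-! ### Exchange of the coordinates -/

/-- the densities after the exchange -/
def fs (f : Fin n → ℝ × ℝ → ℝ≥0∞) : Fin n → ℝ × ℝ → ℝ≥0∞ := fun i u => f i u.swap

/-- the centres after the exchange -/
def cs (c : Fin n → ℝ × ℝ) : Fin n → ℝ × ℝ := fun i => (c i).swap

theorem vol_swap : MeasurePreserving (Prod.swap : ℝ × ℝ → ℝ × ℝ) volume volume := by
  rw [Measure.volume_eq_prod]
  exact Measure.measurePreserving_swap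

theorem PNoise.swap (h : PNoise A R δ c f) : PNoise A R δ (cs c) (fs f) where
  pos := h.pos
  le := h.le
  cle := fun i => ⟨(h.cle i).2, (h.cle i).1⟩
  meas := fun i => (h.meas i).comp measurable_swap
  bdd := fun i u => h.bdd i u.swap
  supp := fun i u hu => by
    have := h.supp i u.swap hu
    exact ⟨this.2, this.1⟩
  one := fun i => by
    rw [← h.one i]
    exact vol_swap.lintegral_comp (h.meas i)

theorem mp_law (h : PNoise A R δ c f) (i : Fin n) :
    MeasurePreserving (Prod.swap : ℝ × ℝ → ℝ × ℝ) (plaw f i) (plaw (fs f) i) := by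
  refine ⟨measurable_swap, ?_⟩
  ext S hS
  rw [Measure.map_apply measurable_swap hS]
  unfold plaw law
  rw [← Measure.volume_eq_prod, withDensity_apply _ hS, withDensity_apply _ (measurable_swap hS)]
  rw [← lintegral_indicator hS, ← lintegral_indicator (measurable_swap hS)]
  rw [← vol_swap.lintegral_comp ((h.swap.meas i).indicator hS)]
  rfl

theorem mp_swp (h : PNoise A R δ c f) :
    MeasurePreserving (swp : (Fin n → ℝ × ℝ) → Fin n → ℝ × ℝ) (Measure.pi (plaw f))
      (Measure.pi (plaw (fs f))) := by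
  have h1 : ∀ i, IsProbabilityMeasure (plaw f i) := law_prob h.noise.one
  have h2 : ∀ i, IsProbabilityMeasure (plaw (fs f) i) := law_prob h.swap.noise.one
  exact measurePreserving_pi _ _ fun i => mp_law h i

theorem PNoise.flat_swp_le (h : PNoise A R δ c f) (hR : 0 ≤ R) {r m0 : ℝ} (hr : 0 < r)
    (hm0 : 0 < m0) (k M : ℕ) (hM : k + 1 ≤ M ∨ n - 1 - k ≤ M) :
    ∫⁻ x, (Fl (swp x) k : ℝ≥0∞) ∂(Measure.pi (plaw f)) ≤ ENNReal.ofReal
      (M * (4 * R / r + 2) + (4 * r * m0 + 192 * A ^ 2 * n * (∑ i, 1 / δ i) / m0)) := by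
  have hm : Measurable fun x : Fin n → ℝ × ℝ => (Fl x k : ℝ≥0∞) :=
    measurable_from_top.comp (measurable_Fl k)
  rw [(mp_swp h).lintegral_comp hm]
  exact h.swap.flat_le hR hr hm0 k M hM

/-! ### The level -/

theorem pc_expect (h : PNoise A R δ c f) (hR : 0 ≤ R) {r m0 : ℝ} (hr : 0 < r) (hm0 : 0 < m0)
    {k : ℕ} (hk : k < n) :
    ∫⁻ x, (pc x k : ℝ≥0∞) ∂(Measure.pi (plaw f)) ≤ ENNReal.ofReal
      (6 * ((min (k + 1) (n - k) : ℕ) * (4 * R / r + 2) +
        (4 * r * m0 + 192 * A ^ 2 * n * (∑ i, 1 / δ i) / m0))) := by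
  classical
  have hH := h.H_nonneg
  set M := min (k + 1) (n - k) with hM
  set B := (M : ℝ) * (4 * R / r + 2) + (4 * r * m0 + 192 * A ^ 2 * n * (∑ i, 1 / δ i) / m0)
    with hB
  have hB0 : 0 ≤ B := by positivity
  have hFm : ∀ k, Measurable fun x : Fin n → ℝ × ℝ => (Fl x k : ℝ≥0∞) := fun k =>
    measurable_from_top.comp (measurable_Fl k)
  have hFs : ∀ k, Measurable fun x : Fin n → ℝ × ℝ => (Fl (swp x) k : ℝ≥0∞) := fun k =>
    (hFm k).comp measurable_swp
  have three : ∀ k', (k' + 1 ≤ M ∨ n - 1 - k' ≤ M) →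
      ((n - 2 - k') + 1 ≤ M ∨ n - 1 - (n - 2 - k') ≤ M) →
      ∫⁻ x, ((Fl x k' : ℝ≥0∞) + ((Fl (swp x) k' : ℝ≥0∞) + (Fl (swp x) (n - 2 - k') : ℝ≥0∞)))
        ∂(Measure.pi (plaw f)) ≤ ENNReal.ofReal (3 * B) := by
    intro k' h1 h2
    rw [lintegral_add_left (hFm k'), lintegral_add_left (hFs k')]
    have h3 : ENNReal.ofReal (3 * B) = ENNReal.ofReal B + (ENNReal.ofReal B +
        ENNReal.ofReal B) := by
      rw [← ENNReal.ofReal_add hB0 hB0, ← ENNReal.ofReal_add hB0 (by positivity)]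
      congr 1
      ring
    rw [h3]
    exact add_le_add (h.flat_le hR hr hm0 k' M h1) (add_le_add (h.flat_swp_le hR hr hm0 k' M h1)
      (h.flat_swp_le hR hr hm0 (n - 2 - k') M h2))
  have h6 : ENNReal.ofReal (6 * B) = ENNReal.ofReal (3 * B) + ENNReal.ofReal (3 * B) := by
    rw [← ENNReal.ofReal_add (by positivity) (by positivity)]
    congr 1
    ring
  rw [h6]
  by_cases hk1 : 1 ≤ k
  · have h1 : ∀ᵐ x ∂(Measure.pi (plaw f)), (pc x k : ℝ≥0∞) ≤
        ((Fl x k : ℝ≥0∞) + ((Fl (swp x) k : ℝ≥0∞) + (Fl (swp x) (n - 2 - k) : ℝ≥0∞))) +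
        ((Fl x (k - 1) : ℝ≥0∞) + ((Fl (swp x) (k - 1) : ℝ≥0∞) +
          (Fl (swp x) (n - 2 - (k - 1)) : ℝ≥0∞))) := by
      filter_upwards [ae_GP h.noise] with x hx
      have := pc_le hx k
      rw [if_pos hk1] at this
      exact_mod_cast this
    refine (lintegral_mono_ae h1).trans ?_
    have hsplit : Measurable fun x : Fin n → ℝ × ℝ => ((Fl x k : ℝ≥0∞) +
        ((Fl (swp x) k : ℝ≥0∞) + (Fl (swp x) (n - 2 - k) : ℝ≥0∞))) :=
      (hFm k).add ((hFs k).add (hFs _))
    rw [lintegral_add_left hsplit]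
    refine add_le_add (three k (by omega) (by omega)) (three (k - 1) (by omega) (by omega))
  · have h1 : ∀ᵐ x ∂(Measure.pi (plaw f)), (pc x k : ℝ≥0∞) ≤
        ((Fl x k : ℝ≥0∞) + ((Fl (swp x) k : ℝ≥0∞) + (Fl (swp x) (n - 2 - k) : ℝ≥0∞))) := by
      filter_upwards [ae_GP h.noise] with x hx
      have := pc_le hx k
      rw [if_neg hk1, add_zero] at this
      exact_mod_cast this
    refine (lintegral_mono_ae h1).trans ((three k (by omega) (by omega)).trans ?_)
    exact le_self_add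

/-- the optimisation -/
theorem optimise {n : ℕ} {A R H M w : ℝ} (hA : 1 / 4 ≤ A) (hR : 0 < R) (hM : 1 ≤ M)
    (hMn : M ≤ n) (hH : (n : ℝ) ≤ R * H) (hw : 0 < w) (hw3 : w ^ 3 = A ^ 2 * n * M * (R * H)) :
    ∃ r m0 : ℝ, 0 < r ∧ 0 < m0 ∧
      6 * (M * (4 * R / r + 2) + (4 * r * m0 + 192 * A ^ 2 * n * H / m0)) ≤ 400 * w := by
  have hM0 : 0 < M := by linarith
  have hn0 : (0 : ℝ) < n := by linarith
  refine ⟨M * R / w, 7 * w ^ 2 / (M * R), by positivity, by positivity, ?_⟩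
  have e1 : 4 * R / (M * R / w) = 4 * w / M := by
    field_simp
  have e2 : 4 * (M * R / w) * (7 * w ^ 2 / (M * R)) = 28 * w := by
    field_simp
    ring
  have e3 : 192 * A ^ 2 * n * H / (7 * w ^ 2 / (M * R)) = 192 / 7 * w := by
    have : 192 * A ^ 2 * n * H / (7 * w ^ 2 / (M * R)) =
        192 / 7 * (A ^ 2 * n * M * (R * H)) / w ^ 2 := by
      field_simp
    rw [this, ← hw3]
    field_simp
  rw [e1, e2, e3]
  have h3 : M ≤ 3 * w := by
    by_contra hc
    rw [not_le] at hc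
    have h4 : (3 * w) ^ 3 < M ^ 3 := pow_lt_pow_left₀ hc (by positivity) (by norm_num)
    have h5 : (3 * w) ^ 3 = 27 * (A ^ 2 * n * M * (R * H)) := by rw [← hw3]; ring
    have h6 : (1 / 16 : ℝ) ≤ A ^ 2 := by nlinarith
    have h7 : M ^ 3 / 16 ≤ A ^ 2 * n * M * (R * H) := by
      have h8 : M * M * M ≤ n * M * (R * H) := by
        have : M ≤ R * H := hMn.trans hH
        gcongr
      calc M ^ 3 / 16 = (1 / 16) * (M * M * M) := by ring
        _ ≤ A ^ 2 * (n * M * (R * H)) := by gcongr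
        _ = _ := by ring
    have h9 : 0 < M ^ 3 := by positivity
    rw [h5] at h4
    linarith
  have e4 : M * (4 * w / M + 2) = 4 * w + 2 * M := by
    field_simp
  rw [e4]
  linarith

theorem psi_expect (h : PNoise A R δ c f) {k : ℕ} (hk : k < n) :
    ∫⁻ x, (pc x k : ℝ≥0∞) ∂(Measure.pi (plaw f)) ≤ ENNReal.ofReal
      (400 * (A ^ 2 * n * (min (k + 1) (n - k) : ℕ) * ∑ i, R / δ i) ^ (1 / 3 : ℝ)) := by
  have i0 : Fin n := ⟨k, hk⟩
  have hA := h.A_ge i0
  have hR : 0 < R := lt_of_lt_of_le (h.pos i0) (h.le i0)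
  have hn : (0 : ℝ) < n := by
    have : 0 < n := by omega
    exact_mod_cast this
  have hM : (1 : ℝ) ≤ (min (k + 1) (n - k) : ℕ) := by
    have : 1 ≤ min (k + 1) (n - k) := by omega
    exact_mod_cast this
  have hMn : ((min (k + 1) (n - k) : ℕ) : ℝ) ≤ n := by
    have : min (k + 1) (n - k) ≤ n := by omega
    exact_mod_cast this
  have hsum : ∑ i, R / δ i = R * ∑ i, 1 / δ i := by
    rw [Finset.mul_sum]
    refine Finset.sum_congr rfl fun i _ => ?_
    ring
  have hH : (n : ℝ) ≤ R * ∑ i, 1 / δ i := by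
    rw [← hsum]
    calc (n : ℝ) = ∑ _i : Fin n, (1 : ℝ) := by simp
      _ ≤ ∑ i, R / δ i := by
        refine Finset.sum_le_sum fun i _ => ?_
        rw [le_div_iff₀ (h.pos i), one_mul]
        exact h.le i
  set W := A ^ 2 * n * (min (k + 1) (n - k) : ℕ) * ∑ i, R / δ i with hW
  have hW0 : 0 < W := by
    rw [hW, hsum]
    have : 0 < R * ∑ i, 1 / δ i := lt_of_lt_of_le hn hH
    have hM0 : (0 : ℝ) < (min (k + 1) (n - k) : ℕ) := by linarith
    have hA0 : 0 < A := by linarith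
    positivity
  have hw3 : (W ^ (1 / 3 : ℝ)) ^ 3 = W := by
    rw [← Real.rpow_natCast, ← Real.rpow_mul hW0.le]
    norm_num
  obtain ⟨r, m0, hr, hm0, hle⟩ := optimise (n := n) (A := A) (R := R) (H := ∑ i, 1 / δ i)
    (M := (min (k + 1) (n - k) : ℕ)) (w := W ^ (1 / 3 : ℝ)) hA hR hM hMn hH
    (Real.rpow_pos_of_pos hW0 _) (by rw [hw3, hW, hsum])
  exact (pc_expect h hR.le hr hm0 hk).trans (ENNReal.ofReal_le_ofReal hle)

open Classical in
/-- Smoothed analysis of the `k`-level, planar noise. -/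
theorem smoothed (h : PNoise A R δ c f) {k : ℕ} (hk : k < n) :
    Integrable (fun x : Fin n → ℝ × ℝ => (psi (Finset.univ.image x) k : ℝ))
      (Measure.pi (plaw f)) ∧
    ∫ x, (psi (Finset.univ.image x) k : ℝ) ∂(Measure.pi (plaw f)) ≤
      400 * (A ^ 2 * n * (min (k + 1) (n - k) : ℕ) * ∑ i, R / δ i) ^ (1 / 3 : ℝ) := by
  have : ∀ i, IsProbabilityMeasure (plaw f i) := law_prob h.noise.one
  refine integral_of_count (G := fun x : Fin n → ℝ × ℝ => psi (Finset.univ.image x) k)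
    (H := fun x => pc x k) (K := n * n) ?_ (measurable_pc k) ?_ ?_ (psi_expect h hk)
  · filter_upwards [ae_GP h.noise] with x hx
    exact psi_eq hx k
  · have hs : 0 ≤ ∑ i, R / δ i := Finset.sum_nonneg fun i _ => by
      have h1 := h.pos i
      have h2 := h.le i
      have : 0 ≤ R := by linarith
      positivity
    positivity
  · intro x
    unfold pc
    refine (Finset.card_filter_le _ _).trans ?_
    simp

end Pool.Agent.SMK
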