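import Pool.Agent.SMK.Res

/-!
# The rank identity
-/

namespace Pool.Agent.SMK

open MeasureTheory Pool.Agent.KL
open scoped ENNReal

variable {n : ℕ}

open Classical in
/-- number of lines of `J` below the point `(X, Y)` -/
noncomputable def cnt (J : Finset (Fin n)) (X Y : ℝ) (x : Fin n → ℝ × ℝ) : ℕ :=
  (J.filter fun m => ev (x m) X < Y).card

theorem measurable_cnt (J : Finset (Fin n)) :
    Measurable fun z : (ℝ × ℝ) × (Fin n → ℝ × ℝ) => cnt J z.1.1 z.1.2 z.2 := by
  classical
  unfold cnt
  simp only [Finset.card_filter]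
  refine Finset.measurable_sum _ fun m _ => ?_
  refine Measurable.ite ?_ measurable_const measurable_const
  refine measurableSet_lt ?_ (by fun_prop)
  unfold ev
  exact ((measurable_fst.comp ((measurable_pi_apply m).comp measurable_snd)).mul
    (measurable_fst.comp measurable_fst)).add
    (measurable_snd.comp ((measurable_pi_apply m).comp measurable_snd))

/-- probability that exactly `k` lines of `J` are below `(X, Y)` -/
noncomputable def Qp (μ : Fin n → Measure (ℝ × ℝ)) (J : Finset (Fin n)) (k : ℕ) (X Y : ℝ) :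
    ℝ≥0∞ := Measure.pi μ {x | cnt J X Y x = k}

theorem measurableSet_cnt (J : Finset (Fin n)) (k : ℕ) (X Y : ℝ) :
    MeasurableSet {x : Fin n → ℝ × ℝ | cnt J X Y x = k} := by
  have h1 : Measurable fun x : Fin n → ℝ × ℝ => cnt J X Y x :=
    (measurable_cnt J).comp (by fun_prop : Measurable fun x : Fin n → ℝ × ℝ => ((X, Y), x))
  exact h1 (measurableSet_singleton k)

theorem Qp_eq (μ : Fin n → Measure (ℝ × ℝ)) (J : Finset (Fin n)) (k : ℕ) (X Y : ℝ) :
    Qp μ J k X Y = ∫⁻ x, (if cnt J X Y x = k then 1 else 0) ∂(Measure.pi μ) := by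
  unfold Qp
  rw [← lintegral_indicator_one (measurableSet_cnt J k X Y)]
  refine lintegral_congr fun x => ?_
  simp [Set.indicator_apply]

theorem measurable_Qp (μ : Fin n → Measure (ℝ × ℝ)) [∀ i, IsProbabilityMeasure (μ i)]
    (J : Finset (Fin n)) (k : ℕ) : Measurable fun z : ℝ × ℝ => Qp μ J k z.1 z.2 := by
  simp_rw [Qp_eq]
  refine Measurable.lintegral_prod_right' (f := fun z : (ℝ × ℝ) × (Fin n → ℝ × ℝ) =>
    if cnt J z.1.1 z.1.2 z.2 = k then (1 : ℝ≥0∞) else 0) ?_
  refine Measurable.ite ?_ measurable_const measurable_const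
  exact (measurable_cnt J) (measurableSet_singleton k)

theorem Qp_le_one (μ : Fin n → Measure (ℝ × ℝ)) [∀ i, IsProbabilityMeasure (μ i)]
    (J : Finset (Fin n)) (k : ℕ) (X Y : ℝ) : Qp μ J k X Y ≤ 1 := prob_le_one

/-- adding one line -/
theorem Qp_erase_le (μ : Fin n → Measure (ℝ × ℝ)) [∀ i, IsProbabilityMeasure (μ i)]
    (J : Finset (Fin n)) (j : Fin n) (k : ℕ) (X Y : ℝ) :
    Qp μ (J.erase j) k X Y ≤ Qp μ J k X Y + Qp μ J (k + 1) X Y := by
  classical
  unfold Qp
  refine (measure_mono ?_).trans (measure_union_le _ _)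
  intro x hx
  simp only [Set.mem_ofPred_eq, Set.mem_union] at hx ⊢
  by_cases hj : j ∈ J
  · have h1 : cnt J X Y x = (if ev (x j) X < Y then 1 else 0) + cnt (J.erase j) X Y x := by
      unfold cnt
      rw [Finset.card_filter, Finset.card_filter, ← Finset.add_sum_erase _ _ hj]
    split_ifs at h1 <;> omega
  · rw [Finset.erase_eq_of_notMem hj] at hx
    exact Or.inl hx

/-- removing one line -/
theorem Qp_le_erase (μ : Fin n → Measure (ℝ × ℝ)) [∀ i, IsProbabilityMeasure (μ i)]
    {J : Finset (Fin n)} {l : Fin n} (hl : l ∈ J) (k : ℕ) (X Y : ℝ) :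
    Qp μ J k X Y ≤ Qp μ (J.erase l) (k - 1) X Y + Qp μ (J.erase l) k X Y := by
  classical
  unfold Qp
  refine (measure_mono ?_).trans (measure_union_le _ _)
  intro x hx
  simp only [Set.mem_ofPred_eq, Set.mem_union] at hx ⊢
  have h1 : cnt J X Y x = (if ev (x l) X < Y then 1 else 0) + cnt (J.erase l) X Y x := by
    unfold cnt
    rw [Finset.card_filter, Finset.card_filter, ← Finset.add_sum_erase _ _ hl]
  split_ifs at h1 <;> omega

variable {ν : Fin n → Measure ℝ} [∀ i, SFinite (ν i)] {f : Fin n → ℝ × ℝ → ℝ≥0∞}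

/-- the laws: the `i`-th line has density `f i` with respect to `ν i ⊗ Lebesgue` -/
noncomputable def law (ν : Fin n → Measure ℝ) (f : Fin n → ℝ × ℝ → ℝ≥0∞) (i : Fin n) :
    Measure (ℝ × ℝ) :=
  ((ν i).prod volume).withDensity (f i)

theorem law_lintegral (hf : ∀ i, Measurable (f i)) (i : Fin n) {g : ℝ × ℝ → ℝ≥0∞}
    (hg : Measurable g) : ∫⁻ u, g u ∂(law ν f i) = ∫⁻ u, f i u * g u ∂((ν i).prod volume) := by
  unfold law
  rw [lintegral_withDensity_eq_lintegral_mul _ (hf i) hg]
  rfl

theorem law_prob (h1 : ∀ i, ∫⁻ u, f i u ∂((ν i).prod volume) = 1) (i : Fin n) : IsProbabilityMeasure (law ν f i) := by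
  refine ⟨?_⟩
  unfold law
  rw [withDensity_apply _ MeasurableSet.univ, Measure.restrict_univ]
  exact h1 i

/-- lines have measure zero -/
theorem law_line (hf : ∀ i, Measurable (f i)) (i : Fin n) (X Y : ℝ) :
    law ν f i {u | ev u X = Y} = 0 := by
  have hm : MeasurableSet {u : ℝ × ℝ | ev u X = Y} := by
    refine measurableSet_eq_fun ?_ measurable_const
    unfold ev
    fun_prop
  have h1 : law ν f i {u | ev u X = Y} =
      ∫⁻ u, f i u * (({Y} : Set ℝ).indicator 1 (ev u X)) ∂((ν i).prod volume) := by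
    rw [← lintegral_indicator_one hm, law_lintegral hf i (measurable_one.indicator hm)]
    refine lintegral_congr fun u => ?_
    congr 1
  rw [h1, lintegral_dn (hf i) (measurable_one.indicator (measurableSet_singleton Y)) X]
  have h2 : ∀ y, dn (ν i) (f i) X y * ({Y} : Set ℝ).indicator 1 y =
      ({Y} : Set ℝ).indicator (fun y => dn (ν i) (f i) X y) y := by
    intro y
    by_cases hy : y ∈ ({Y} : Set ℝ)
    · simp [Set.indicator_of_mem hy]
    · simp [Set.indicator_of_notMem hy]
  simp_rw [h2]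
  rw [lintegral_indicator (measurableSet_singleton Y)]
  simp

theorem ae_ne (hf : ∀ i, Measurable (f i)) (h1 : ∀ i, ∫⁻ u, f i u ∂((ν i).prod volume) = 1) (X : ℝ) {l m : Fin n}
    (hlm : l ≠ m) : Measure.pi (law ν f) {x | ev (x l) X = ev (x m) X} = 0 := by
  have := law_prob h1
  have hm : MeasurableSet {x : Fin n → ℝ × ℝ | ev (x l) X = ev (x m) X} := by
    refine measurableSet_eq_fun ?_ ?_
    · unfold ev; fun_prop
    · unfold ev; fun_prop
  rw [← lintegral_indicator_one hm, resample _ l (measurable_one.indicator hm)]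
  rw [lintegral_eq_zero_iff']
  · refine Filter.Eventually.of_forall fun x => ?_
    simp only [Pi.zero_apply]
    have h2 : ∀ u, ({x : Fin n → ℝ × ℝ | ev (x l) X = ev (x m) X}).indicator
        (1 : (Fin n → ℝ × ℝ) → ℝ≥0∞) (Function.update x l u) =
        ({u | ev u X = ev (x m) X} : Set (ℝ × ℝ)).indicator 1 u := by
      intro u
      simp only [Set.indicator_apply, Set.mem_ofPred_eq, Function.update_self,
        Function.update_of_ne hlm.symm]
      rfl
    simp_rw [h2]
    rw [lintegral_indicator_one]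
    · exact law_line hf l X _
    · refine measurableSet_eq_fun ?_ measurable_const
      unfold ev; fun_prop
  · have hz : Measurable fun z : (Fin n → ℝ × ℝ) × (ℝ × ℝ) =>
        ({x : Fin n → ℝ × ℝ | ev (x l) X = ev (x m) X}).indicator
        (1 : (Fin n → ℝ × ℝ) → ℝ≥0∞) (Function.update z.1 l z.2) :=
      (measurable_one.indicator hm).comp (mp_update (law ν f) l).measurable
    exact (Measurable.lintegral_prod_right' hz).aemeasurable

/-- rank identity -/
theorem rank_le (hf : ∀ i, Measurable (f i)) (h1 : ∀ i, ∫⁻ u, f i u ∂((ν i).prod volume) = 1) (X : ℝ)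
    (J : Finset (Fin n)) (k : ℕ) :
    ∑ l ∈ J, ∫⁻ Y, dn (ν l) (f l) X Y * Qp (law ν f) (J.erase l) k X Y ≤ 1 := by
  classical
  have := law_prob h1
  have hmeas : ∀ l, Measurable fun x : Fin n → ℝ × ℝ =>
      (if cnt (J.erase l) X (ev (x l) X) x = k then (1 : ℝ≥0∞) else 0) := by
    intro l
    refine Measurable.ite ?_ measurable_const measurable_const
    have h2 : Measurable fun x : Fin n → ℝ × ℝ => cnt (J.erase l) X (ev (x l) X) x := by
      refine (measurable_cnt (J.erase l)).comp (g := fun z => cnt (J.erase l) z.1.1 z.1.2 z.2)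
        (f := fun x : Fin n → ℝ × ℝ => ((X, ev (x l) X), x)) ?_
      unfold ev
      fun_prop
    exact h2 (measurableSet_singleton k)
  have key : ∀ l ∈ J, ∫⁻ Y, dn (ν l) (f l) X Y * Qp (law ν f) (J.erase l) k X Y =
      ∫⁻ x, (if cnt (J.erase l) X (ev (x l) X) x = k then (1 : ℝ≥0∞) else 0)
        ∂(Measure.pi (law ν f)) := by
    intro l _
    have hQ : Measurable fun Y : ℝ => Qp (law ν f) (J.erase l) k X Y :=
      (measurable_Qp (law ν f) (J.erase l) k).comp
        (by fun_prop : Measurable fun Y : ℝ => (X, Y))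
    rw [← lintegral_dn (hf l) hQ X]
    have hQ' : Measurable fun u : ℝ × ℝ => Qp (law ν f) (J.erase l) k X (ev u X) := by
      refine hQ.comp ?_
      unfold ev
      fun_prop
    rw [← law_lintegral hf l hQ', resample _ l (hmeas l)]
    have hcong : ∀ (x : Fin n → ℝ × ℝ) (u : ℝ × ℝ),
        (if cnt (J.erase l) X (ev ((Function.update x l u) l) X) (Function.update x l u) = k
          then (1 : ℝ≥0∞) else 0) = if cnt (J.erase l) X (ev u X) x = k then 1 else 0 := by
      intro x u
      have h3 : cnt (J.erase l) X (ev ((Function.update x l u) l) X) (Function.update x l u) =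
          cnt (J.erase l) X (ev u X) x := by
        unfold cnt
        rw [Function.update_self]
        congr 1
        refine Finset.filter_congr fun m hm => ?_
        rw [Function.update_of_ne (Finset.ne_of_mem_erase hm)]
      rw [h3]
    simp_rw [hcong]
    simp_rw [Qp_eq]
    rw [lintegral_lintegral_swap]
    have h4 : Measurable fun z : (ℝ × ℝ) × (Fin n → ℝ × ℝ) =>
        cnt (J.erase l) X (ev z.1 X) z.2 := by
      refine (measurable_cnt (J.erase l)).comp (g := fun z => cnt (J.erase l) z.1.1 z.1.2 z.2)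
        (f := fun z : (ℝ × ℝ) × (Fin n → ℝ × ℝ) => ((X, ev z.1 X), z.2)) ?_
      unfold ev
      fun_prop
    exact (Measurable.ite (h4 (measurableSet_singleton k)) measurable_const
      measurable_const).aemeasurable
  rw [Finset.sum_congr rfl key, ← lintegral_finsetSum _ fun l _ => hmeas l]
  have hae : ∀ᵐ x ∂(Measure.pi (law ν f)), ∑ l ∈ J,
      (if cnt (J.erase l) X (ev (x l) X) x = k then (1 : ℝ≥0∞) else 0) ≤ 1 := by
    have h2 : ∀ᵐ x ∂(Measure.pi (law ν f)), ∀ l m : Fin n, l ≠ m → ev (x l) X ≠ ev (x m) X := by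
      rw [ae_all_iff]; intro l
      rw [ae_all_iff]; intro m
      by_cases hlm : l = m
      · exact Filter.Eventually.of_forall fun x h => absurd hlm h
      · have h3 := ae_ne hf h1 X hlm
        have h4 : ∀ᵐ x ∂(Measure.pi (law ν f)), ¬ ev (x l) X = ev (x m) X := by
          rw [ae_iff]
          simpa using h3
        filter_upwards [h4] with x hx _
        exact hx
    filter_upwards [h2] with x hx
    rw [← Finset.sum_filter]
    have hcard : (J.filter fun l => cnt (J.erase l) X (ev (x l) X) x = k).card ≤ 1 := by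
      rw [Finset.card_le_one]
      intro a ha b hb
      rw [Finset.mem_filter] at ha hb
      by_contra hab
      have key2 : ∀ a b : Fin n, a ∈ J → b ∈ J → ev (x a) X < ev (x b) X →
          cnt (J.erase a) X (ev (x a) X) x < cnt (J.erase b) X (ev (x b) X) x := by
        intro a b ha hb hlt
        unfold cnt
        refine Finset.card_lt_card ?_
        rw [Finset.ssubset_iff_of_subset]
        · refine ⟨a, ?_, ?_⟩
          · rw [Finset.mem_filter, Finset.mem_erase]
            refine ⟨⟨?_, ha⟩, hlt⟩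
            rintro rfl
            exact lt_irrefl _ hlt
          · simp
        · intro m hm
          rw [Finset.mem_filter, Finset.mem_erase] at hm ⊢
          refine ⟨⟨?_, hm.1.2⟩, hm.2.trans hlt⟩
          rintro rfl
          exact lt_asymm hlt hm.2
      rcases lt_or_gt_of_ne (hx a b hab) with h | h
      · have := key2 a b ha.1 hb.1 h
        rw [ha.2, hb.2] at this
        exact lt_irrefl _ this
      · have := key2 b a hb.1 ha.1 h
        rw [ha.2, hb.2] at this
        exact lt_irrefl _ this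
    rw [Finset.sum_const, nsmul_eq_mul, mul_one]
    exact_mod_cast hcard
  refine (lintegral_mono_ae hae).trans ?_
  rw [lintegral_const, measure_univ, one_mul]

/-- total mass against a probability, at most `2 + |complement|` -/
theorem four (hf : ∀ i, Measurable (f i)) (h1 : ∀ i, ∫⁻ u, f i u ∂((ν i).prod volume) = 1) (X : ℝ)
    (J : Finset (Fin n)) (k : ℕ) :
    ∫⁻ Y, (∑ l, dn (ν l) (f l) X Y) * Qp (law ν f) J k X Y ≤ 2 + ((Finset.univ \ J).card : ℝ≥0∞) := by
  classical
  have := law_prob h1
  have hd : ∀ l, Measurable fun Y : ℝ => dn (ν l) (f l) X Y := fun l =>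
    (measurable_dn (hf l)).comp (by fun_prop : Measurable fun Y : ℝ => (X, Y))
  have hQ : ∀ J k, Measurable fun Y : ℝ => Qp (law ν f) J k X Y := fun J k =>
    (measurable_Qp (law ν f) J k).comp (by fun_prop : Measurable fun Y : ℝ => (X, Y))
  have hone : ∀ l, ∫⁻ Y, dn (ν l) (f l) X Y = 1 := by
    intro l
    have := lintegral_dn (ν := ν l) (hf l) (h := fun _ => 1) measurable_const X
    simp only [mul_one] at this
    rw [← this, h1]
  simp_rw [Finset.sum_mul]
  have hsum : ∫⁻ Y, ∑ l, dn (ν l) (f l) X Y * Qp (law ν f) J k X Y =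
      ∑ l, ∫⁻ Y, dn (ν l) (f l) X Y * Qp (law ν f) J k X Y :=
    lintegral_finsetSum _ fun l _ => (hd l).mul (hQ J k)
  rw [hsum]
  rw [← Finset.sum_sdiff (Finset.subset_univ J), add_comm]
  refine add_le_add ?_ ?_
  · have hstep : ∀ l ∈ J, ∫⁻ Y, dn (ν l) (f l) X Y * Qp (law ν f) J k X Y ≤
        (∫⁻ Y, dn (ν l) (f l) X Y * Qp (law ν f) (J.erase l) (k - 1) X Y) +
          ∫⁻ Y, dn (ν l) (f l) X Y * Qp (law ν f) (J.erase l) k X Y := by
      intro l hl
      have h2 : ∫⁻ Y, (dn (ν l) (f l) X Y * Qp (law ν f) (J.erase l) (k - 1) X Y +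
          dn (ν l) (f l) X Y * Qp (law ν f) (J.erase l) k X Y) =
          (∫⁻ Y, dn (ν l) (f l) X Y * Qp (law ν f) (J.erase l) (k - 1) X Y) +
          ∫⁻ Y, dn (ν l) (f l) X Y * Qp (law ν f) (J.erase l) k X Y :=
        lintegral_add_left ((hd l).mul (hQ _ _)) _
      rw [← h2]
      refine lintegral_mono fun Y => ?_
      rw [← mul_add]
      gcongr
      exact Qp_le_erase (law ν f) hl k X Y
    calc ∑ l ∈ J, ∫⁻ Y, dn (ν l) (f l) X Y * Qp (law ν f) J k X Y
        ≤ ∑ l ∈ J, ((∫⁻ Y, dn (ν l) (f l) X Y * Qp (law ν f) (J.erase l) (k - 1) X Y) +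
          ∫⁻ Y, dn (ν l) (f l) X Y * Qp (law ν f) (J.erase l) k X Y) := Finset.sum_le_sum hstep
      _ ≤ 1 + 1 := by
          rw [Finset.sum_add_distrib]
          exact add_le_add (rank_le hf h1 X J (k - 1)) (rank_le hf h1 X J k)
      _ = 2 := one_add_one_eq_two
  · calc ∑ l ∈ Finset.univ \ J, ∫⁻ Y, dn (ν l) (f l) X Y * Qp (law ν f) J k X Y
        ≤ ∑ l ∈ Finset.univ \ J, 1 := by
          refine Finset.sum_le_sum fun l _ => ?_
          rw [← hone l]
          refine lintegral_mono fun Y => ?_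
          exact mul_le_of_le_one_right (by positivity) (Qp_le_one _ _ _ _ _)
      _ = ((Finset.univ \ J).card : ℝ≥0∞) := by simp

end Pool.Agent.SMK
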