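import Pool.Agent.SMK.Vert

/-!
# Resampling one coordinate, one-dimensional densities, change of variables
-/

namespace Pool.Agent.SMK

open MeasureTheory Pool.Agent.KL
open scoped ENNReal

variable {n : ℕ}

theorem mp_update (μ : Fin n → Measure (ℝ × ℝ)) [∀ i, IsProbabilityMeasure (μ i)] (i : Fin n) :
    MeasurePreserving (fun z : (Fin n → ℝ × ℝ) × (ℝ × ℝ) => Function.update z.1 i z.2)
      ((Measure.pi μ).prod (μ i)) (Measure.pi μ) := by
  have hm : Measurable (fun z : (Fin n → ℝ × ℝ) × (ℝ × ℝ) => Function.update z.1 i z.2) := by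
    rw [measurable_pi_iff]
    intro m
    by_cases h : m = i
    · subst h
      simp only [Function.update_self]
      exact measurable_snd
    · simp only [Function.update_of_ne h]
      exact (measurable_pi_apply m).comp measurable_fst
  refine ⟨hm, ?_⟩
  symm
  refine Measure.pi_eq fun s hs => ?_
  rw [Measure.map_apply hm (MeasurableSet.univ_pi hs)]
  have h1 : (fun z : (Fin n → ℝ × ℝ) × (ℝ × ℝ) => Function.update z.1 i z.2) ⁻¹'
      (Set.univ.pi s) = (Set.univ.pi (Function.update s i Set.univ)) ×ˢ (s i) := by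
    ext z
    simp only [Set.mem_preimage, Set.mem_pi, Set.mem_univ, true_implies, Set.mem_prod]
    constructor
    · intro h
      constructor
      · intro m
        by_cases hm : m = i
        · subst hm; simp
        · have := h m
          rw [Function.update_of_ne hm] at this
          rw [Function.update_of_ne hm]
          exact this
      · have := h i
        rwa [Function.update_self] at this
    · rintro ⟨h2, h3⟩ m
      by_cases hm : m = i
      · subst hm
        rw [Function.update_self]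
        exact h3
      · have := h2 m
        rw [Function.update_of_ne hm] at this
        rw [Function.update_of_ne hm]
        exact this
  rw [h1, Measure.prod_prod, Measure.pi_pi]
  rw [← Finset.mul_prod_erase Finset.univ _ (Finset.mem_univ i),
    ← Finset.mul_prod_erase Finset.univ (fun m => μ m (s m)) (Finset.mem_univ i)]
  rw [Function.update_self, measure_univ, one_mul, mul_comm]
  congr 1
  refine Finset.prod_congr rfl fun m hm => ?_
  rw [Function.update_of_ne (Finset.ne_of_mem_erase hm)]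

theorem resample (μ : Fin n → Measure (ℝ × ℝ)) [∀ i, IsProbabilityMeasure (μ i)] (i : Fin n)
    {F : (Fin n → ℝ × ℝ) → ℝ≥0∞} (hF : Measurable F) :
    ∫⁻ x, F x ∂(Measure.pi μ) =
      ∫⁻ x, ∫⁻ u, F (Function.update x i u) ∂(μ i) ∂(Measure.pi μ) := by
  have h := (mp_update μ i).lintegral_comp hF
  rw [← h, lintegral_prod]
  exact (hF.comp (mp_update μ i).measurable).aemeasurable

/-- density of the projection of `g` -/
noncomputable def dn (ν : Measure ℝ) (g : ℝ × ℝ → ℝ≥0∞) (X Y : ℝ) : ℝ≥0∞ :=
  ∫⁻ a, g (a, Y - a * X) ∂ν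

theorem measurable_dn {ν : Measure ℝ} [SFinite ν] {g : ℝ × ℝ → ℝ≥0∞} (hg : Measurable g) :
    Measurable fun z : ℝ × ℝ => dn ν g z.1 z.2 := by
  unfold dn
  exact Measurable.lintegral_prod_right' (f := fun z : (ℝ × ℝ) × ℝ =>
    g (z.2, z.1.2 - z.2 * z.1.1)) (hg.comp (by fun_prop))

theorem lintegral_dn {ν : Measure ℝ} [SFinite ν] {g : ℝ × ℝ → ℝ≥0∞} (hg : Measurable g)
    {h : ℝ → ℝ≥0∞} (hh : Measurable h) (X : ℝ) :
    ∫⁻ u : ℝ × ℝ, g u * h (ev u X) ∂(ν.prod volume) = ∫⁻ Y, dn ν g X Y * h Y := by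
  have hm : Measurable fun u : ℝ × ℝ => g u * h (ev u X) := by
    refine hg.mul (hh.comp ?_)
    unfold ev
    fun_prop
  rw [lintegral_prod _ hm.aemeasurable]
  have h1 : ∀ a : ℝ, ∫⁻ b, g (a, b) * h (ev (a, b) X) = ∫⁻ Y, g (a, Y - a * X) * h Y := by
    intro a
    rw [← lintegral_sub_right_eq_self (fun b => g (a, b) * h (ev (a, b) X)) (a * X)]
    refine lintegral_congr fun Y => ?_
    unfold ev
    simp
  simp_rw [h1]
  rw [lintegral_lintegral_swap]
  · refine lintegral_congr fun Y => ?_
    unfold dn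
    rw [lintegral_mul_const]
    exact hg.comp (by fun_prop)
  · exact ((hg.comp (by fun_prop : Measurable fun z : ℝ × ℝ => (z.1, z.2 - z.1 * X))).mul
      (hh.comp measurable_snd)).aemeasurable

/-- one-dimensional affine substitution -/
theorem subst1 {g : ℝ → ℝ≥0∞} (hg : Measurable g) (b : ℝ) {c : ℝ} (hc : 0 < c) :
    ∫⁻ y, g y = ENNReal.ofReal c * ∫⁻ X, g (b - c * X) := by
  have h1 : ∫⁻ y, g y = ∫⁻ y, g (b + y) := (lintegral_add_left_eq_self g b).symm
  rw [h1]
  have hc' : -c ≠ 0 := by linarith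
  have h2 := Real.smul_map_volume_mul_left hc'
  have hgm : Measurable fun y => g (b + y) := hg.comp (by fun_prop)
  conv_lhs => rw [← h2]
  rw [lintegral_smul_measure, lintegral_map hgm (by fun_prop)]
  rw [abs_neg, abs_of_pos hc]
  simp only [smul_eq_mul]
  congr 1
  refine lintegral_congr fun X => ?_
  congr 1
  ring

/-- the planar substitution `(b, b') = (Y - a X, Y - a' X)` -/
theorem subst2 {G : ℝ → ℝ → ℝ≥0∞} (hG : Measurable (Function.uncurry G)) {a a' : ℝ}
    (haa : a < a') :
    ∫⁻ b, ∫⁻ b', G b b' = ENNReal.ofReal (a' - a) *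
      ∫⁻ X, ∫⁻ Y, G (Y - a * X) (Y - a' * X) := by
  have hc : 0 < a' - a := by linarith
  have h1 : ∀ b, ∫⁻ b', G b b' = ENNReal.ofReal (a' - a) * ∫⁻ X, G b (b - (a' - a) * X) :=
    fun b => subst1 (hG.comp (by fun_prop : Measurable fun y : ℝ => (b, y))) b hc
  simp_rw [h1]
  have hm : Measurable fun z : ℝ × ℝ => G z.1 (z.1 - (a' - a) * z.2) :=
    hG.comp (by fun_prop : Measurable fun z : ℝ × ℝ => (z.1, z.1 - (a' - a) * z.2))
  rw [lintegral_const_mul _ (Measurable.lintegral_prod_right' hm)]
  congr 1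
  rw [lintegral_lintegral_swap hm.aemeasurable]
  refine lintegral_congr fun X => ?_
  rw [← lintegral_sub_right_eq_self (fun b => G b (b - (a' - a) * X)) (a * X)]
  refine lintegral_congr fun Y => ?_
  congr 1
  ring

end Pool.Agent.SMK
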