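import Pool.Agent.SMK.Final2

/-!
# Smoothed analysis of the `k`-level above an interval: noise in the intercepts only
-/

namespace Pool.Agent.SMK

open MeasureTheory Pool.Agent.KL
open scoped ENNReal

variable {n : ℕ} {A S : ℝ} {a β δ : Fin n → ℝ} {g : Fin n → ℝ → ℝ≥0∞}

/-- the model with noise in the intercepts: arbitrary slopes `a i` in `[-S, S]`, independent
intercepts with density at most `A / δ_i`, supported in `[β_i - δ_i, β_i + δ_i]` -/
structure INoise (A S : ℝ) (a β δ : Fin n → ℝ) (g : Fin n → ℝ → ℝ≥0∞) : Prop where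
  pos : ∀ i, 0 < δ i
  slope : ∀ i, |a i| ≤ S
  meas : ∀ i, Measurable (g i)
  bdd : ∀ i y, g i y ≤ ENNReal.ofReal (A / δ i)
  supp : ∀ i y, g i y ≠ 0 → |y - β i| ≤ δ i
  one : ∀ i, ∫⁻ y, g i y = 1

theorem INoise.A_pos (h : INoise A S a β δ g) (i : Fin n) : 0 < A := by
  have hd := h.pos i
  by_contra hc
  have h1 : A / δ i ≤ 0 := div_nonpos_of_nonpos_of_nonneg (not_lt.1 hc) hd.le
  have h2 : ∀ y, g i y = 0 := by
    intro y
    have := h.bdd i y
    rw [ENNReal.ofReal_of_nonpos h1] at this
    exact le_antisymm this (by positivity)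
  have h3 := h.one i
  simp [h2] at h3

open Classical in
/-- densities after an affine change of the abscissa -/
noncomputable def gd (s T : ℝ) (a : Fin n → ℝ) (g : Fin n → ℝ → ℝ≥0∞) :
    Fin n → ℝ × ℝ → ℝ≥0∞ := fun i u => if u.1 = T * a i then g i (u.2 - a i * s) else 0

/-- the Dirac masses at the slopes -/
noncomputable def gn (T : ℝ) (a : Fin n → ℝ) : Fin n → Measure ℝ := fun i =>
  Measure.dirac (T * a i)

instance (T : ℝ) (a : Fin n → ℝ) (i : Fin n) : IsProbabilityMeasure (gn T a i) := by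
  unfold gn
  infer_instance

theorem gd_meas (s T : ℝ) (hg : ∀ i, Measurable (g i)) (i : Fin n) :
    Measurable (gd s T a g i) := by
  unfold gd
  exact Measurable.ite (measurableSet_eq_fun measurable_fst measurable_const)
    ((hg i).comp (by fun_prop)) measurable_const

theorem gd_lint (s T : ℝ) (hg : ∀ i, Measurable (g i)) (i : Fin n) {F : ℝ × ℝ → ℝ≥0∞}
    (hF : Measurable F) :
    ∫⁻ u, gd s T a g i u * F u ∂((gn T a i).prod volume) =
      ∫⁻ b, g i b * F (T * a i, b + a i * s) := by
  have hm : Measurable fun u : ℝ × ℝ => gd s T a g i u * F u := (gd_meas s T hg i).mul hF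
  rw [lintegral_prod _ hm.aemeasurable]
  unfold gn
  rw [lintegral_dirac]
  rw [← lintegral_add_right_eq_self (fun b => gd s T a g i (T * a i, b) * F (T * a i, b)) (a i * s)]
  refine lintegral_congr fun b => ?_
  unfold gd
  simp

theorem INoise.noise (h : INoise A S a β δ g) (s : ℝ) {T : ℝ} (hT : 0 < T) :
    Noise (T * S) (fun i => A / δ i) δ (fun i => (T * a i, β i + a i * s)) (gn T a)
      (gd s T a g) where
  pos := h.pos
  Ppos := fun i => by
    have := h.pos i
    have := h.A_pos i
    positivity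
  range := fun i u hu => by
    unfold gd at hu
    by_cases h1 : u.1 = T * a i
    · rw [h1, abs_mul, abs_of_pos hT]
      exact mul_le_mul_of_nonneg_left (h.slope i) hT.le
    · rw [if_neg h1] at hu
      exact absurd rfl hu
  meas := gd_meas s T h.meas
  dn_le := fun i X Y _ => by
    unfold dn gn
    rw [lintegral_dirac]
    unfold gd
    simp only [if_true]
    exact h.bdd i _
  supp := fun i u hu => by
    unfold gd at hu
    by_cases h1 : u.1 = T * a i
    · rw [if_pos h1] at hu
      refine ⟨?_, ?_⟩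
      · simp only [h1, sub_self, abs_zero]
        exact (h.pos i).le
      · have := h.supp i _ hu
        simp only
        have e : u.2 - (β i + a i * s) = u.2 - a i * s - β i := by ring
        rw [e]
        exact this
    · rw [if_neg h1] at hu
      exact absurd rfl hu
  one := fun i => by
    have h1 := gd_lint (a := a) s T h.meas i (F := fun _ => 1) measurable_const
    simp only [mul_one] at h1
    rw [h1, h.one i]

/-- the laws of the intercepts -/
noncomputable def ilaw (g : Fin n → ℝ → ℝ≥0∞) (i : Fin n) : Measure ℝ := volume.withDensity (g i)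

theorem ilaw_prob (h : INoise A S a β δ g) (i : Fin n) : IsProbabilityMeasure (ilaw g i) := by
  refine ⟨?_⟩
  unfold ilaw
  rw [withDensity_apply _ MeasurableSet.univ, Measure.restrict_univ]
  exact h.one i

theorem mp_one (h : INoise A S a β δ g) (s T : ℝ) (i : Fin n) :
    MeasurePreserving (fun b : ℝ => (T * a i, b + a i * s)) (ilaw g i)
      (law (gn T a) (gd s T a g) i) := by
  have hm : Measurable (fun b : ℝ => (T * a i, b + a i * s)) := by fun_prop
  refine ⟨hm, ?_⟩
  ext E hE
  rw [Measure.map_apply hm hE]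
  unfold ilaw law
  rw [withDensity_apply _ hE, withDensity_apply _ (hm hE)]
  rw [← lintegral_indicator hE, ← lintegral_indicator (hm hE)]
  have h1 := gd_lint (a := a) s T h.meas i (F := E.indicator 1) (measurable_one.indicator hE)
  have h2 : ∀ u, E.indicator (gd s T a g i) u = gd s T a g i u * E.indicator 1 u := by
    intro u
    by_cases hu : u ∈ E <;> simp [hu]
  have h3 : ∀ b, ((fun b : ℝ => (T * a i, b + a i * s)) ⁻¹' E).indicator (g i) b =
      g i b * E.indicator 1 (T * a i, b + a i * s) := by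
    intro b
    by_cases hb : (T * a i, b + a i * s) ∈ E
    · rw [Set.indicator_of_mem (show b ∈ (fun b : ℝ => (T * a i, b + a i * s)) ⁻¹' E from hb),
        Set.indicator_of_mem hb]
      simp
    · rw [Set.indicator_of_notMem (show b ∉ (fun b : ℝ => (T * a i, b + a i * s)) ⁻¹' E from hb),
        Set.indicator_of_notMem hb]
      simp
  simp_rw [h2, h3]
  exact h1.symm

/-- the lines -/
def lines (a : Fin n → ℝ) (b : Fin n → ℝ) : Fin n → ℝ × ℝ := fun i => (a i, b i)

theorem mp_all (h : INoise A S a β δ g) (s T : ℝ) :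
    MeasurePreserving (fun b : Fin n → ℝ => aff s T (lines a b)) (Measure.pi (ilaw g))
      (Measure.pi (law (gn T a) (gd s T a g))) := by
  have h1 : ∀ i, IsProbabilityMeasure (ilaw g i) := ilaw_prob h
  have h2 : ∀ i, IsProbabilityMeasure (law (gn T a) (gd s T a g) i) := by
    intro i
    rw [← (mp_one h s T i).map_eq]
    exact Measure.isProbabilityMeasure_map (mp_one h s T i).measurable.aemeasurable
  exact measurePreserving_pi _ _ fun i => mp_one h s T i

theorem measurable_pcOn (k : ℕ) :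
    Measurable fun x : Fin n → ℝ × ℝ => pcOn x k (fun X => |X| ≤ 1) := by
  classical
  unfold pcOn
  simp only [Finset.card_filter]
  refine Finset.measurable_sum _ fun e _ => ?_
  have h1 : MeasurableSet ((fun x : Fin n → ℝ × ℝ => lo x e.1 e.2) ⁻¹' {k}) :=
    measurable_lo e.1 e.2 (measurableSet_singleton k)
  have h2 : MeasurableSet ((fun x : Fin n → ℝ × ℝ => lo x e.1 e.2) ⁻¹' {a | a + 1 = k}) :=
    measurable_lo e.1 e.2 (MeasurableSet.of_discrete)
  have m3 : Measurable fun x : Fin n → ℝ × ℝ => |cr (x e.1) (x e.2)| := by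
    unfold cr
    fun_prop
  exact Measurable.ite ((measurable_ltc e.1 e.2).inter ((h1.union h2).inter
    (measurableSet_le m3 measurable_const))) measurable_const measurable_const

/-- the optimisation -/
theorem optimise2 {N A S' H M w : ℝ} (hS : 0 < S') (hM : 0 < M) (hw : 0 < w)
    (hw3 : w ^ 3 = A ^ 2 * N * M * (S' * H)) :
    ∃ r m0 : ℝ, 0 < r ∧ 0 < m0 ∧
      2 * (M * (2 * S' / r + 2) + (4 * r * m0 + 48 * (A * H * (A * N)) / m0)) ≤
        60 * w + 4 * M := by
  refine ⟨M * S' / w, 7 / 2 * w ^ 2 / (M * S'), by positivity, by positivity, ?_⟩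
  have e1 : M * (2 * S' / (M * S' / w)) = 2 * w := by
    field_simp
  have e2 : 4 * (M * S' / w) * (7 / 2 * w ^ 2 / (M * S')) = 14 * w := by
    field_simp
    ring
  have e3 : 48 * (A * H * (A * N)) / (7 / 2 * w ^ 2 / (M * S')) = 96 / 7 * w := by
    have : 48 * (A * H * (A * N)) / (7 / 2 * w ^ 2 / (M * S')) =
        96 / 7 * (A ^ 2 * N * M * (S' * H)) / w ^ 2 := by
      field_simp
      ring
    rw [this, ← hw3]
    field_simp
  have e4 : M * (2 * S' / (M * S' / w) + 2) = 2 * w + 2 * M := by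
    rw [mul_add, e1]
    ring
  rw [e4, e2, e3]
  linarith

theorem strip_expect (h : INoise A S a β δ g) (hS : 0 < S) {k : ℕ} (hk : k < n) (s : ℝ) {T : ℝ}
    (hT : 0 < T) :
    ∫⁻ b, (pcOn (aff s T (lines a b)) k (fun X => |X| ≤ 1) : ℝ≥0∞) ∂(Measure.pi (ilaw g)) ≤
      ENNReal.ofReal (60 * (A ^ 2 * n * (min (k + 1) (n - k) : ℕ) * ∑ i, S * T / δ i) ^
        (1 / 3 : ℝ) + 4 * (min (k + 1) (n - k) : ℕ)) := by
  classical
  have i0 : Fin n := ⟨k, hk⟩
  have hN := h.noise s hT
  have hA := h.A_pos i0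
  have hn : (0 : ℝ) < n := by
    have : 0 < n := by omega
    exact_mod_cast this
  have hM : (0 : ℝ) < (min (k + 1) (n - k) : ℕ) := by
    have : 0 < min (k + 1) (n - k) := by omega
    exact_mod_cast this
  have hH : 0 < ∑ i, 1 / δ i := by
    refine Finset.sum_pos (fun i _ => ?_) ⟨i0, Finset.mem_univ _⟩
    have := h.pos i
    positivity
  have hsum : ∑ i, S * T / δ i = T * S * ∑ i, 1 / δ i := by
    rw [Finset.mul_sum]
    refine Finset.sum_congr rfl fun i _ => ?_
    ring
  set W := A ^ 2 * n * (min (k + 1) (n - k) : ℕ) * ∑ i, S * T / δ i with hW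
  have hW0 : 0 < W := by
    rw [hW, hsum]
    positivity
  have hw3 : (W ^ (1 / 3 : ℝ)) ^ 3 = W := by
    rw [← Real.rpow_natCast, ← Real.rpow_mul hW0.le]
    norm_num
  obtain ⟨r, m0, hr, hm0, hle⟩ := optimise2 (N := n) (A := A) (S' := T * S) (H := ∑ i, 1 / δ i)
    (M := (min (k + 1) (n - k) : ℕ)) (w := W ^ (1 / 3 : ℝ)) (by positivity) hM
    (Real.rpow_pos_of_pos hW0 _) (by rw [hw3, hW, hsum])
  have hP : ∑ i, A / δ i = A * ∑ i, 1 / δ i := by
    rw [Finset.mul_sum]
    refine Finset.sum_congr rfl fun i _ => ?_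
    ring
  have hPd : ∑ i, A / δ i * δ i = A * n := by
    have : ∀ i, A / δ i * δ i = A := fun i => div_mul_cancel₀ _ (h.pos i).ne'
    simp_rw [this]
    simp
    ring
  have hflat := fun k' hM' => flat_le hN (by positivity) hr hm0 k' (min (k + 1) (n - k)) hM'
  rw [hP, hPd] at hflat
  set B := ((min (k + 1) (n - k) : ℕ) : ℝ) * (2 * (T * S) / r + 2) +
    (4 * r * m0 + 48 * (A * (∑ i, 1 / δ i) * (A * n)) / m0) with hB
  have hB0 : 0 ≤ B := by positivity
  have hFm : ∀ k, Measurable fun x : Fin n → ℝ × ℝ => (Fl x k : ℝ≥0∞) := fun k =>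
    measurable_from_top.comp (measurable_Fl k)
  have hpm : Measurable fun x : Fin n → ℝ × ℝ => (pcOn x k (fun X => |X| ≤ 1) : ℝ≥0∞) :=
    measurable_from_top.comp (measurable_pcOn k)
  have e0 := (mp_all h s T).lintegral_comp hpm
  rw [e0]
  refine le_trans ?_ (ENNReal.ofReal_le_ofReal hle)
  have h2 : ENNReal.ofReal (2 * B) = ENNReal.ofReal B + ENNReal.ofReal B := by
    rw [← ENNReal.ofReal_add hB0 hB0]
    congr 1
    ring
  rw [h2]
  by_cases hk1 : 1 ≤ k
  · have h1 : ∀ᵐ x ∂(Measure.pi (law (gn T a) (gd s T a g))),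
        (pcOn x k (fun X => |X| ≤ 1) : ℝ≥0∞) ≤ (Fl x k : ℝ≥0∞) + (Fl x (k - 1) : ℝ≥0∞) := by
      filter_upwards [ae_GP hN] with x hx
      have := pcOn_le hx k
      rw [if_pos hk1] at this
      exact_mod_cast this
    refine (lintegral_mono_ae h1).trans ?_
    rw [lintegral_add_left (hFm k)]
    exact add_le_add (hflat k (by omega)) (hflat (k - 1) (by omega))
  · have h1 : ∀ᵐ x ∂(Measure.pi (law (gn T a) (gd s T a g))),
        (pcOn x k (fun X => |X| ≤ 1) : ℝ≥0∞) ≤ (Fl x k : ℝ≥0∞) := by
      filter_upwards [ae_GP hN] with x hx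
      have := pcOn_le hx k
      rw [if_neg hk1, add_zero] at this
      exact_mod_cast this
    refine (lintegral_mono_ae h1).trans ((hflat k (by omega)).trans ?_)
    exact le_self_add

open Classical in
/-- Smoothed analysis of the `k`-level above an interval, noise in the intercepts only. -/
theorem strip (h : INoise A S a β δ g) (hS : 0 < S) {k : ℕ} (hk : k < n) (s : ℝ) {T : ℝ}
    (hT : 0 < T) :
    Integrable (fun b : Fin n → ℝ => (({p : ℝ × ℝ | IsVertex (Finset.univ.image (lines a b)) k p ∧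
      |p.1 - s| ≤ T}.ncard : ℕ) : ℝ)) (Measure.pi (ilaw g)) ∧
    ∫ b, (({p : ℝ × ℝ | IsVertex (Finset.univ.image (lines a b)) k p ∧
      |p.1 - s| ≤ T}.ncard : ℕ) : ℝ) ∂(Measure.pi (ilaw g)) ≤
      60 * (A ^ 2 * n * (min (k + 1) (n - k) : ℕ) * ∑ i, S * T / δ i) ^ (1 / 3 : ℝ) +
        4 * (min (k + 1) (n - k) : ℕ) := by
  have : ∀ i, IsProbabilityMeasure (ilaw g i) := ilaw_prob h
  have hmp := mp_all h s T
  refine integral_of_count (G := fun b : Fin n → ℝ =>
      {p : ℝ × ℝ | IsVertex (Finset.univ.image (lines a b)) k p ∧ |p.1 - s| ≤ T}.ncard)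
    (H := fun b => pcOn (aff s T (lines a b)) k (fun X => |X| ≤ 1)) (K := n * n) ?_
    ((measurable_pcOn k).comp hmp.measurable) ?_ ?_ (strip_expect h hS hk s hT)
  · have h1 : ∀ᵐ b ∂(Measure.pi (ilaw g)), GP (aff s T (lines a b)) :=
      hmp.quasiMeasurePreserving.ae (ae_GP (h.noise s hT))
    filter_upwards [h1] with b hb
    have h2 := GP_of_aff hT hb
    have h3 := psiOn_eq h2 k (fun X => |X - s| ≤ T)
    rw [pcOn_aff s hT] at h3
    exact h3
  · have hs : 0 ≤ ∑ i, S * T / δ i := Finset.sum_nonneg fun i _ => by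
      have h1 := h.pos i
      positivity
    positivity
  · intro b
    unfold pcOn
    refine (Finset.card_filter_le _ _).trans ?_
    simp

end Pool.Agent.SMK
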