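import Pool.Agent.SMK.Pair

/-!
# The expected number of short flat edges
-/

namespace Pool.Agent.SMK

open MeasureTheory Pool.Agent.KL
open scoped ENNReal

variable {n : ℕ}

/-- the noise model: independent lines, the law of the `i`-th has density `f i` with respect to
`ν i ⊗ Lebesgue`, supported in the square with centre `c_i` and half side `δ_i`; the projection
`a X + b` has density at most `P i` for `|X| ≤ 1` -/
structure Noise (S : ℝ) (P δ : Fin n → ℝ) (c : Fin n → ℝ × ℝ) (ν : Fin n → Measure ℝ)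
    (f : Fin n → ℝ × ℝ → ℝ≥0∞) : Prop where
  pos : ∀ i, 0 < δ i
  Ppos : ∀ i, 0 ≤ P i
  range : ∀ i u, f i u ≠ 0 → |u.1| ≤ S
  meas : ∀ i, Measurable (f i)
  dn_le : ∀ i X Y, |X| ≤ 1 → dn (ν i) (f i) X Y ≤ ENNReal.ofReal (P i)
  supp : ∀ i u, f i u ≠ 0 → |u.1 - (c i).1| ≤ δ i ∧ |u.2 - (c i).2| ≤ δ i
  one : ∀ i, ∫⁻ u, f i u ∂((ν i).prod volume) = 1

variable {S : ℝ} {P δ : Fin n → ℝ} {c : Fin n → ℝ × ℝ} {ν : Fin n → Measure ℝ}
  [∀ i, SFinite (ν i)] {f : Fin n → ℝ × ℝ → ℝ≥0∞}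

theorem Noise.dn_zero (h : Noise S P δ c ν f) (i : Fin n) {X Y : ℝ} (hX : |X| ≤ 1)
    (hd : 2 * δ i < |ev (c i) X - Y|) : dn (ν i) (f i) X Y = 0 := by
  unfold dn
  have hz : ∀ a : ℝ, f i (a, Y - a * X) = 0 := by
    intro a
    by_contra hu
    obtain ⟨h2, h3⟩ := h.supp i _ hu
    simp only at h2 h3
    have h4 : ev (c i) X - Y = -((a - (c i).1) * X) + -(Y - a * X - (c i).2) := by
      unfold ev; ring
    rw [h4] at hd
    have h5 := abs_add_le (-((a - (c i).1) * X)) (-(Y - a * X - (c i).2))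
    rw [abs_neg, abs_neg, abs_mul] at h5
    have h6 : |a - (c i).1| * |X| ≤ δ i * 1 :=
      mul_le_mul h2 hX (abs_nonneg _) (h.pos i).le
    linarith
  simp [hz]

theorem Kp_le (h : Noise S P δ c ν f) (r : ℝ) (i j : Fin n) (X Y : ℝ) (C : ℝ≥0∞)
    (hC : ∀ a a', wt r a a' * (f i (a, Y - a * X) * f j (a', Y - a' * X)) ≤
      C * (f i (a, Y - a * X) * f j (a', Y - a' * X))) :
    Kp ν f r i j X Y ≤ C * (dn (ν i) (f i) X Y * dn (ν j) (f j) X Y) := by
  have m1 : Measurable fun a : ℝ => f i (a, Y - a * X) := (h.meas i).comp (by fun_prop)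
  have m2 : Measurable fun a : ℝ => f j (a, Y - a * X) := (h.meas j).comp (by fun_prop)
  unfold Kp dn
  calc ∫⁻ a, ∫⁻ a', wt r a a' * (f i (a, Y - a * X) * f j (a', Y - a' * X)) ∂(ν j) ∂(ν i)
      ≤ ∫⁻ a, ∫⁻ a', C * (f i (a, Y - a * X) * f j (a', Y - a' * X)) ∂(ν j) ∂(ν i) :=
        lintegral_mono fun a => lintegral_mono fun a' => hC a a'
    _ = ∫⁻ a, C * (f i (a, Y - a * X) * ∫⁻ a', f j (a', Y - a' * X) ∂(ν j)) ∂(ν i) := by
        refine lintegral_congr fun a => ?_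
        rw [lintegral_const_mul _ (m2.const_mul _), lintegral_const_mul _ m2]
    _ = C * ((∫⁻ a, f i (a, Y - a * X) ∂(ν i)) * ∫⁻ a', f j (a', Y - a' * X) ∂(ν j)) := by
        rw [lintegral_const_mul _ (m1.mul_const _), lintegral_mul_const _ m1]

theorem Kp_le_r (h : Noise S P δ c ν f) (r : ℝ) (i j : Fin n) (X Y : ℝ) :
    Kp ν f r i j X Y ≤ ENNReal.ofReal r * (dn (ν i) (f i) X Y * dn (ν j) (f j) X Y) := by
  refine Kp_le h r i j X Y _ fun a a' => ?_
  gcongr
  unfold wt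
  split_ifs with hw
  · exact ENNReal.ofReal_le_ofReal hw.2.le
  · positivity

theorem Kp_le_D (h : Noise S P δ c ν f) (r : ℝ) (i j : Fin n) (X Y : ℝ) :
    Kp ν f r i j X Y ≤ ENNReal.ofReal (|(c i).1 - (c j).1| + (δ i + δ j)) *
      (dn (ν i) (f i) X Y * dn (ν j) (f j) X Y) := by
  refine Kp_le h r i j X Y _ fun a a' => ?_
  by_cases h1 : f i (a, Y - a * X) = 0
  · rw [h1]; simp
  by_cases h2 : f j (a', Y - a' * X) = 0
  · rw [h2]; simp
  gcongr
  unfold wt
  split_ifs with hw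
  · refine ENNReal.ofReal_le_ofReal ?_
    have h3 := (h.supp i _ h1).1
    have h4 := (h.supp j _ h2).1
    simp only at h3 h4
    have h5 := neg_abs_le ((c i).1 - (c j).1)
    rw [abs_le] at h3 h4
    linarith [h3.1, h4.2]
  · positivity

/-- the set of abscissas at which two lines are within distance `2 w` -/
theorem theta (α β : ℝ) {w : ℝ} (hw : 0 < w) :
    volume {X : ℝ | |X| ≤ 1 ∧ |β + α * X| ≤ 2 * w} * ENNReal.ofReal (|α| + w) ≤
      ENNReal.ofReal (6 * w) := by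
  have h1 : volume {X : ℝ | |X| ≤ 1 ∧ |β + α * X| ≤ 2 * w} ≤ ENNReal.ofReal 2 := by
    have : {X : ℝ | |X| ≤ 1 ∧ |β + α * X| ≤ 2 * w} ⊆ Set.Icc (-1) 1 := by
      intro X hX
      exact abs_le.1 hX.1
    refine (measure_mono this).trans ?_
    rw [Real.volume_Icc]
    norm_num
  by_cases hα : α = 0
  · subst hα
    calc volume {X : ℝ | |X| ≤ 1 ∧ |β + 0 * X| ≤ 2 * w} * ENNReal.ofReal (|0| + w)
        ≤ ENNReal.ofReal 2 * ENNReal.ofReal (|0| + w) := by gcongr
      _ = ENNReal.ofReal (2 * (|0| + w)) := (ENNReal.ofReal_mul (by norm_num)).symm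
      _ ≤ ENNReal.ofReal (6 * w) := by
        refine ENNReal.ofReal_le_ofReal ?_
        rw [abs_zero]
        linarith
  · have hα' : 0 < |α| := abs_pos.2 hα
    have h2 : volume {X : ℝ | |X| ≤ 1 ∧ |β + α * X| ≤ 2 * w} ≤ ENNReal.ofReal (4 * w / |α|) := by
      have : {X : ℝ | |X| ≤ 1 ∧ |β + α * X| ≤ 2 * w} ⊆
          Set.Icc (-β / α - 2 * w / |α|) (-β / α + 2 * w / |α|) := by
        intro X hX
        have h3 : |X - -β / α| ≤ 2 * w / |α| := by
          rw [le_div_iff₀ hα', ← abs_mul]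
          have : (X - -β / α) * α = β + α * X := by
            field_simp
            ring
          rw [this]
          exact hX.2
        rw [abs_le] at h3
        constructor <;> linarith [h3.1, h3.2]
      refine (measure_mono this).trans ?_
      rw [Real.volume_Icc]
      refine ENNReal.ofReal_le_ofReal (le_of_eq ?_)
      ring
    calc volume {X : ℝ | |X| ≤ 1 ∧ |β + α * X| ≤ 2 * w} * ENNReal.ofReal (|α| + w)
        = volume {X : ℝ | |X| ≤ 1 ∧ |β + α * X| ≤ 2 * w} * ENNReal.ofReal |α| +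
          volume {X : ℝ | |X| ≤ 1 ∧ |β + α * X| ≤ 2 * w} * ENNReal.ofReal w := by
          rw [ENNReal.ofReal_add (abs_nonneg _) hw.le, mul_add]
      _ ≤ ENNReal.ofReal (4 * w / |α|) * ENNReal.ofReal |α| +
          ENNReal.ofReal 2 * ENNReal.ofReal w := by gcongr
      _ = ENNReal.ofReal (6 * w) := by
          rw [← ENNReal.ofReal_mul (by positivity), ← ENNReal.ofReal_mul (by norm_num),
            ← ENNReal.ofReal_add (by positivity) (by positivity)]
          congr 1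
          field_simp
          ring

end Pool.Agent.SMK
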