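import Pool.Agent.SMK.Det2

/-!
# The vertices of the level of lines in general position
-/

namespace Pool.Agent.SMK

open Finset Pool.Agent.KL Pool.Agent.KLS

variable {n : ℕ}

open Classical in
/-- number of pairs whose crossing has exactly `k` or `k - 1` lines strictly below -/
noncomputable def pc (x : Fin n → ℝ × ℝ) (k : ℕ) : ℕ :=
  (univ.filter fun e : Fin n × Fin n => (x e.1).1 < (x e.2).1 ∧
    (lo x e.1 e.2 = k ∨ lo x e.1 e.2 + 1 = k)).card

open Classical in
/-- number of pairs whose crossing has exactly `k` or `k - 1` lines strictly below and whose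
abscissa has the property `I` -/
noncomputable def pcOn (x : Fin n → ℝ × ℝ) (k : ℕ) (I : ℝ → Prop) : ℕ :=
  (univ.filter fun e : Fin n × Fin n => (x e.1).1 < (x e.2).1 ∧
    (lo x e.1 e.2 = k ∨ lo x e.1 e.2 + 1 = k) ∧ I (cr (x e.1) (x e.2))).card

theorem pcOn_true (x : Fin n → ℝ × ℝ) (k : ℕ) : pcOn x k (fun _ => True) = pc x k := by
  unfold pcOn pc
  simp only [and_true]

/-- the crossing point -/
noncomputable def pt (p q : ℝ × ℝ) : ℝ × ℝ := (cr p q, ev p (cr p q))

theorem cr_comm (p q : ℝ × ℝ) : cr p q = cr q p := by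
  unfold cr
  rw [← neg_sub q.1 p.1, div_neg, neg_sub p.2 q.2]
  rw [← neg_div, neg_sub]

/-- the lines through the crossing point -/
theorem ev_eq_iff {x : Fin n → ℝ × ℝ} (h : GP x) {i j : Fin n} (hij : (x i).1 < (x j).1)
    (m : Fin n) : ev (x m) (cr (x i) (x j)) = ev (x i) (cr (x i) (x j)) ↔ m = i ∨ m = j := by
  have hne : i ≠ j := by
    rintro rfl
    exact lt_irrefl _ hij
  constructor
  · intro h1
    by_contra hc
    rw [not_or] at hc
    have h2 := h.2 i j m (Ne.symm hc.1) (Ne.symm hc.2) hij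
    rw [orr_eq hij, h1, sub_self, mul_zero] at h2
    exact h2 rfl
  · rintro (rfl | rfl)
    · rfl
    · exact ev_cr hij

theorem level_pt {x : Fin n → ℝ × ℝ} (h : GP x) {i j : Fin n} (hij : (x i).1 < (x j).1) :
    level (univ.image x) (pt (x i) (x j)) = lo x i j := by
  classical
  unfold level lo
  have h1 : ((univ.image x).filter fun l => ev l (pt (x i) (x j)).1 < (pt (x i) (x j)).2) =
      (univ.filter fun m => orr (x i) (x j) (x m) < 0).image x := by
    ext l
    simp only [Finset.mem_filter, Finset.mem_image, Finset.mem_univ, true_and]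
    constructor
    · rintro ⟨⟨m, rfl⟩, hm⟩
      exact ⟨m, (orr_neg hij _).2 hm, rfl⟩
    · rintro ⟨m, hm, rfl⟩
      exact ⟨⟨m, rfl⟩, (orr_neg hij _).1 hm⟩
  rw [h1, Finset.card_image_of_injective _ h.inj]

theorem nle_pt {x : Fin n → ℝ × ℝ} (h : GP x) {i j : Fin n} (hij : (x i).1 < (x j).1) :
    nle (univ.image x) (pt (x i) (x j)).1 (pt (x i) (x j)).2 ≤ lo x i j + 2 := by
  classical
  have h0 := level_pt h hij
  rw [← h0]
  unfold level nle
  have h1 : ((univ.image x).filter fun l => ev l (pt (x i) (x j)).1 ≤ (pt (x i) (x j)).2) ⊆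
      ((univ.image x).filter fun l => ev l (pt (x i) (x j)).1 < (pt (x i) (x j)).2) ∪
        {x i, x j} := by
    intro l hl
    rw [Finset.mem_filter, Finset.mem_image] at hl
    obtain ⟨⟨m, -, rfl⟩, hm⟩ := hl
    rw [Finset.mem_union, Finset.mem_filter, Finset.mem_insert, Finset.mem_singleton]
    rcases lt_or_eq_of_le hm with h2 | h2
    · exact Or.inl ⟨Finset.mem_image_of_mem _ (mem_univ _), h2⟩
    · right
      rcases (ev_eq_iff h hij m).1 h2 with rfl | rfl
      · exact Or.inl rfl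
      · exact Or.inr rfl
  refine (Finset.card_le_card h1).trans ((Finset.card_union_le _ _).trans ?_)
  exact Nat.add_le_add_left (Finset.card_le_two) _

theorem psiOn_eq {x : Fin n → ℝ × ℝ} (h : GP x) (k : ℕ) (I : ℝ → Prop) :
    {p : ℝ × ℝ | IsVertex (univ.image x) k p ∧ I p.1}.ncard = pcOn x k I := by
  classical
  unfold pcOn
  set E := univ.filter fun e : Fin n × Fin n => (x e.1).1 < (x e.2).1 ∧
    (lo x e.1 e.2 = k ∨ lo x e.1 e.2 + 1 = k) ∧ I (cr (x e.1) (x e.2)) with hE
  have h1 : {p : ℝ × ℝ | IsVertex (univ.image x) k p ∧ I p.1} =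
      ((E.image fun e => pt (x e.1) (x e.2) : Finset (ℝ × ℝ)) : Set (ℝ × ℝ)) := by
    ext p
    rw [Finset.coe_image]
    constructor
    · rintro ⟨hp, hI⟩
      obtain ⟨l, hl, l', hl', hne, hpl, hpl', δ, hδ, hδ1, hδ2⟩ := hp
      rw [Finset.mem_image] at hl hl'
      obtain ⟨i, -, rfl⟩ := hl
      obtain ⟨j, -, rfl⟩ := hl'
      have hpk : p ∈ kLevel (univ.image x) k := by
        have := hδ1 p.1 ⟨by linarith, le_rfl⟩
        rw [hpl] at this
        exact this
      have key : ∀ i j : Fin n, (x i).1 < (x j).1 → ev (x i) p.1 = p.2 → ev (x j) p.1 = p.2 →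
          p ∈ (fun e : Fin n × Fin n => pt (x e.1) (x e.2)) '' (E : Set (Fin n × Fin n)) := by
        intro i j hij h1 h2
        have hc : p.1 = cr (x i) (x j) := by
          unfold cr
          rw [eq_div_iff (by linarith)]
          unfold ev at h1 h2
          linarith
        have hp : pt (x i) (x j) = p := by
          unfold pt
          rw [← hc, h1]
        refine ⟨(i, j), ?_, hp⟩
        rw [Finset.mem_coe, hE, Finset.mem_filter]
        refine ⟨mem_univ _, hij, ?_, hc ▸ hI⟩
        obtain ⟨h3, h4⟩ := nle_of_mem hpk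
        have h5 := level_pt h hij
        have h6 := nle_pt h hij
        rw [hp] at h5 h6
        unfold level at h5
        unfold nlt at h3
        simp only
        omega
      have hs : (x i).1 ≠ (x j).1 := (eq_of_common hne (hpl.trans hpl'.symm)).1
      rcases lt_or_gt_of_ne hs with h7 | h7
      · exact key i j h7 hpl hpl'
      · exact key j i h7 hpl' hpl
    · rintro ⟨e, he, rfl⟩
      rw [Finset.mem_coe, hE, Finset.mem_filter] at he
      obtain ⟨-, he1, he2, he3⟩ := he
      refine ⟨?_, he3⟩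
      have h2 := vertex_of_two (Γ := univ.image x) (Finset.mem_image_of_mem x (mem_univ e.1))
        (Finset.mem_image_of_mem x (mem_univ e.2)) he1 (p := pt (x e.1) (x e.2)) rfl
        (ev_cr he1) (by
          intro l hl hl1 hl2 hl3
          rw [Finset.mem_image] at hl
          obtain ⟨m, -, rfl⟩ := hl
          rcases (ev_eq_iff h he1 m).1 hl3 with h4 | h4
          · exact hl1 (by rw [h4])
          · exact hl2 (by rw [h4]))
      rw [level_pt h he1] at h2
      rcases he2 with he2 | he2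
      · rw [he2] at h2; exact h2.1
      · rw [he2] at h2; exact h2.2
  rw [h1, Set.ncard_coe_finset, Finset.card_image_of_injOn]
  intro e he e' he' hee
  rw [Finset.mem_coe, hE, Finset.mem_filter] at he he'
  have h2 : cr (x e.1) (x e.2) = cr (x e'.1) (x e'.2) := congrArg Prod.fst hee
  have h3 : ev (x e.1) (cr (x e.1) (x e.2)) = ev (x e'.1) (cr (x e'.1) (x e'.2)) :=
    congrArg Prod.snd hee
  have h4 := (ev_eq_iff h he.2.1 e'.1).1 (by rw [h3, h2])
  have h5 := (ev_eq_iff h he.2.1 e'.2).1 (by rw [h3, h2, ev_cr he'.2.1])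
  have h6 := he.2.1
  have h7 := he'.2.1
  rcases h4 with h4 | h4 <;> rcases h5 with h5 | h5
  · rw [h4, h5] at h7; exact absurd h7 (lt_irrefl _)
  · exact Prod.ext h4.symm h5.symm
  · rw [h4, h5] at h7; exact absurd h6 (not_lt.2 h7.le)
  · rw [h4, h5] at h7; exact absurd h7 (lt_irrefl _)

theorem psi_eq {x : Fin n → ℝ × ℝ} (h : GP x) (k : ℕ) : psi (univ.image x) k = pc x k := by
  rw [← pcOn_true, ← psiOn_eq h]
  unfold psi
  simp only [and_true]

open Classical in
/-- the complexity of the level is bounded by numbers of flat edges -/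
theorem pc_le {x : Fin n → ℝ × ℝ} (h : GP x) (k : ℕ) :
    pc x k ≤ (Fl x k + (Fl (swp x) k + Fl (swp x) (n - 2 - k))) +
      (if 1 ≤ k then Fl x (k - 1) + (Fl (swp x) (k - 1) + Fl (swp x) (n - 2 - (k - 1)))
        else 0) := by
  have hE : ∀ e : Fin n × Fin n, (x e.1).1 < (x e.2).1 → ∀ k, lo x e.1 e.2 = k →
      Ed x k e.1 e.2 := by
    intro e he k hk
    have := h.lohi he
    exact ⟨he, hk, by omega⟩
  by_cases hk : 1 ≤ k
  · rw [if_pos hk]
    refine le_trans ?_ (Nat.add_le_add (edges_le x k) (edges_le x (k - 1)))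
    unfold pc
    refine le_trans (Finset.card_le_card ?_) (Finset.card_union_le _ _)
    intro e he
    rw [Finset.mem_filter] at he
    rw [Finset.mem_union, Finset.mem_filter, Finset.mem_filter]
    rcases he.2.2 with h1 | h1
    · exact Or.inl ⟨mem_univ _, hE e he.2.1 k h1⟩
    · exact Or.inr ⟨mem_univ _, hE e he.2.1 (k - 1) (by omega)⟩
  · rw [if_neg hk, add_zero]
    refine le_trans ?_ (edges_le x k)
    unfold pc
    refine Finset.card_le_card ?_
    intro e he
    rw [Finset.mem_filter] at he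
    rw [Finset.mem_filter]
    rcases he.2.2 with h1 | h1
    · exact ⟨mem_univ _, hE e he.2.1 k h1⟩
    · exact ⟨mem_univ _, hE e he.2.1 k (by omega)⟩

open Classical in
/-- vertices above `[-1, 1]` are flat edges -/
theorem pcOn_le {x : Fin n → ℝ × ℝ} (h : GP x) (k : ℕ) :
    pcOn x k (fun X => |X| ≤ 1) ≤ Fl x k + (if 1 ≤ k then Fl x (k - 1) else 0) := by
  have hE : ∀ e : Fin n × Fin n, (x e.1).1 < (x e.2).1 → ∀ k, lo x e.1 e.2 = k →
      |cr (x e.1) (x e.2)| ≤ 1 → Ed x k e.1 e.2 ∧
        |(x e.2).2 - (x e.1).2| ≤ (x e.2).1 - (x e.1).1 := by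
    intro e he k hk hc
    have := h.lohi he
    refine ⟨⟨he, hk, by omega⟩, ?_⟩
    unfold cr at hc
    rwa [abs_div, abs_neg, abs_of_pos (sub_pos.2 he), div_le_one (sub_pos.2 he)] at hc
  by_cases hk : 1 ≤ k
  · rw [if_pos hk]
    unfold pcOn Fl
    refine le_trans (Finset.card_le_card ?_) (Finset.card_union_le _ _)
    intro e he
    rw [Finset.mem_filter] at he
    rw [Finset.mem_union, Finset.mem_filter, Finset.mem_filter]
    rcases he.2.2.1 with h1 | h1
    · exact Or.inl ⟨mem_univ _, hE e he.2.1 k h1 he.2.2.2⟩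
    · exact Or.inr ⟨mem_univ _, hE e he.2.1 (k - 1) (by omega) he.2.2.2⟩
  · rw [if_neg hk, add_zero]
    unfold pcOn Fl
    refine Finset.card_le_card ?_
    intro e he
    rw [Finset.mem_filter] at he
    rw [Finset.mem_filter]
    rcases he.2.2.1 with h1 | h1
    · exact ⟨mem_univ _, hE e he.2.1 k h1 he.2.2.2⟩
    · exact ⟨mem_univ _, hE e he.2.1 k (by omega) he.2.2.2⟩

/-! ### Affine changes of the abscissa -/

/-- `x ↦ T x + s` in the abscissa -/
def aff (s T : ℝ) (x : Fin n → ℝ × ℝ) : Fin n → ℝ × ℝ := fun i =>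
  (T * (x i).1, (x i).2 + (x i).1 * s)

theorem orr_aff (s T : ℝ) (x : Fin n → ℝ × ℝ) (i j m : Fin n) :
    orr (aff s T x i) (aff s T x j) (aff s T x m) = T * orr (x i) (x j) (x m) := by
  unfold orr aff; ring

theorem lo_aff (s : ℝ) {T : ℝ} (hT : 0 < T) (x : Fin n → ℝ × ℝ) (i j : Fin n) :
    lo (aff s T x) i j = lo x i j := by
  classical
  unfold lo
  congr 1
  refine Finset.filter_congr fun m _ => ?_
  rw [orr_aff]
  exact ⟨fun h => by
    by_contra hc
    have := mul_nonneg hT.le (not_lt.1 hc)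
    linarith, fun h => mul_neg_of_pos_of_neg hT h⟩

theorem cr_aff (s : ℝ) {T : ℝ} (hT : 0 < T) {x : Fin n → ℝ × ℝ} {i j : Fin n}
    (hij : (x i).1 < (x j).1) :
    cr (aff s T x i) (aff s T x j) = (cr (x i) (x j) - s) / T := by
  unfold cr aff
  simp only
  have h1 : (x j).1 - (x i).1 ≠ 0 := by linarith
  have h2 : T * (x j).1 - T * (x i).1 ≠ 0 := by
    rw [← mul_sub]
    exact mul_ne_zero hT.ne' h1
  rw [div_eq_div_iff h2 hT.ne']
  field_simp
  ring

theorem GP_of_aff {s T : ℝ} (hT : 0 < T) {x : Fin n → ℝ × ℝ} (h : GP (aff s T x)) : GP x := by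
  refine ⟨fun i j hij => h.1 ?_, fun i j m him hjm hij => ?_⟩
  · unfold aff
    simp only [hij]
  · have h1 := h.2 i j m him hjm (mul_lt_mul_of_pos_left hij hT)
    rw [orr_aff] at h1
    exact fun h2 => h1 (by rw [h2, mul_zero])

theorem pcOn_aff (s : ℝ) {T : ℝ} (hT : 0 < T) (x : Fin n → ℝ × ℝ) (k : ℕ) :
    pcOn x k (fun X => |X - s| ≤ T) = pcOn (aff s T x) k (fun X => |X| ≤ 1) := by
  classical
  unfold pcOn
  congr 1
  refine Finset.filter_congr fun e _ => ?_
  have h1 : (aff s T x e.1).1 < (aff s T x e.2).1 ↔ (x e.1).1 < (x e.2).1 := by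
    unfold aff
    simp only
    exact mul_lt_mul_iff_right₀ hT
  rw [h1, lo_aff s hT]
  refine and_congr_right fun h2 => ?_
  rw [cr_aff s hT h2]
  beta_reduce
  rw [abs_div, abs_of_pos hT, div_le_one hT]

end Pool.Agent.SMK
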